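import Pool.Agent.Helper227.EN.Gen

set_option autoImplicit false

open MeasureTheory Encodable FirstOrder FirstOrder.Language
open scoped ENNReal

namespace Pool.Agent.Helper227.EN

/-- Conditions. -/
structure Cnd (M : Type) [LA.Structure M] (R : Set (ℕ → Bool)) where
  n : ℕ
  k : ℕ
  b : ℕ → M
  inj : Function.Injective b
  good : Good R (Pr n k b)

variable {M : Type} [LA.Structure M] {R : Set (ℕ → Bool)}

/-- a sequence is compatible with a condition -/
def Cnd.Comp (p : Cnd M R) (b : ℕ → M) : Prop :=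
  Function.Injective b ∧ ∀ z, Pos p.n p.k z → E p.n b z = E p.n p.b z

instance : Preorder (Cnd M R) where
  le p p' := p.n ≤ p'.n ∧ p.k ≤ p'.k ∧ ∀ z, Pos p.n p.k z → E p.n p'.b z = E p.n p.b z
  le_refl p := ⟨le_rfl, le_rfl, fun _ _ => rfl⟩
  le_trans p p' p'' h h' := by
    refine ⟨h.1.trans h'.1, h.2.1.trans h'.2.1, fun z hz => ?_⟩
    rw [← h.2.2 z hz]
    exact agree_down p''.b p'.b p.n p'.n p.k p'.k h.1 h.2.1 h'.2.2 z hz

theorem Cnd.le_def {p p' : Cnd M R} : p ≤ p' ↔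
    p.n ≤ p'.n ∧ p.k ≤ p'.k ∧ ∀ z, Pos p.n p.k z → E p.n p'.b z = E p.n p.b z := Iff.rfl

theorem Cnd.comp_self (p : Cnd M R) : p.Comp p.b := ⟨p.inj, fun _ _ => rfl⟩

theorem Cnd.comp_mono {p p' : Cnd M R} (h : p ≤ p') {b : ℕ → M} (hb : p'.Comp b) : p.Comp b := by
  refine ⟨hb.1, fun z hz => ?_⟩
  rw [← h.2.2 z hz]
  exact agree_down b p'.b p.n p'.n p.k p'.k h.1 h.2.1 hb.2 z hz

theorem Cnd.comp_of_le {p p' : Cnd M R} (h : p ≤ p') : p.Comp p'.b := ⟨p'.inj, h.2.2⟩

theorem Cnd.comp_of_agree (p : Cnd M R) {b : ℕ → M} (hb : Function.Injective b)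
    (h : ∀ i < p.k, b i = p.b i) : p.Comp b :=
  ⟨hb, fun z hz => E_agree p.b b p.k h p.n z hz⟩

/-- positions below `k` of the atomic diagram are decided -/
theorem Cnd.comp_Dg {p : Cnd M R} {b : ℕ → M} (h : p.Comp b) {s : ℕ} (hs : s ≤ p.k) :
    pre (Dg b) s = pre (Dg p.b) s := by
  have h1 := agree_down b p.b 0 p.n p.k p.k (Nat.zero_le _) le_rfl h.2
  unfold pre
  refine List.map_congr_left fun i hi => ?_
  rw [List.mem_range] at hi
  exact h1 i (by show i < p.k; omega)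

theorem null_good {S : Setup M R} (n k : ℕ) (b : ℕ → M) (h : Good R (Pr n k b)) (Q : ℕ → Bool)
    (hQ : Q ∈ R) : Good R (Helper227.join (Pr n k b) Q) := Good.join S.join h hQ

/-- extension of conditions inside a clopen set -/
theorem Cnd.ext (S : Setup M R) (p : Cnd M R) (d k' : ℕ) (hk : p.k ≤ k') (g : List Bool → Prop)
    (N : ℕ) (b' : ℕ → M) (hb' : p.Comp b') (hg : g (pre (E (p.n + d) b') N)) :
    ∃ p' : Cnd M R, p ≤ p' ∧ p'.n = p.n + d ∧ p'.k = k' ∧ g (pre (E (p.n + d) p'.b) N) := by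
  classical
  obtain ⟨Q, hQ⟩ := S.nonempty
  have hK : S1 fun x : List Bool × List Bool => N ≤ x.2.length ∧
      x.2.take N ∈ (allStr N).filter (fun η => ¬ g η) := by
    refine S1.of_prim (PrimrecPred.and ?_ ?_)
    · exact Primrec.nat_le.comp (Primrec.const N) (Primrec.list_length.comp Primrec.snd)
    · have : PrimrecRel fun (a : List Bool) (L : List (List Bool)) => a ∈ L := by
        refine ((PrimrecRel.exists_mem_list (R := fun (b a : List Bool) => b = a) Primrec.eq).comp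
          Primrec.snd Primrec.fst).of_eq fun x => ?_
        simp
      exact this.comp (Primrec.list_take.comp (Primrec.const N) Primrec.snd) (Primrec.const _)
  have hKe : ∀ y : ℕ → Bool, (∀ s, ¬ (N ≤ (pre y s).length ∧
      (pre y s).take N ∈ (allStr N).filter (fun η => ¬ g η))) ↔ g (pre y N) := by
    intro y
    simp only [length_pre, List.mem_filter, mem_allStr, decide_eq_true_eq, not_and, not_not]
    constructor
    · intro h
      have := h N le_rfl (by simp)
      rwa [take_pre _ _ _ le_rfl] at this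
    · intro h s hs _
      rw [take_pre _ _ _ hs]
      exact h
  obtain ⟨b'', h1, h2, h3, h4⟩ := ext_gen S p.n p.k d p.b Q (Good.join S.join p.good hQ) hK b' hb'.1
    hb'.2 ((hKe _).2 hg)
  exact ⟨⟨p.n + d, k', b'', h1, h4.mono (Pr_tLe _ _ _)⟩, ⟨by simp, hk, h2⟩, rfl, rfl, (hKe _).1 h3⟩

theorem Cnd.raise (S : Setup M R) (p : Cnd M R) (N : ℕ) :
    ∃ p' : Cnd M R, p ≤ p' ∧ N ≤ p'.n ∧ N ≤ p'.k := by
  obtain ⟨p', h1, h2, h3, -⟩ := p.ext S N (p.k + N) (by omega) (fun _ => True) 0 p.b p.comp_self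
    trivial
  exact ⟨p', h1, by omega, by omega⟩

/-- extension inside an `EDef` set -/
theorem Cnd.ext_edef (S : Setup M R) (p : Cnd M R) {Q : (ℕ → M) → Prop} (hQ : EDef Q) (b' : ℕ → M)
    (hb' : p.Comp b') (h : Q b') :
    ∃ p' : Cnd M R, p ≤ p' ∧ ∀ b, p'.Comp b → Q b := by
  obtain ⟨n0, N0, hr⟩ := edef_raise hQ
  obtain ⟨n1, N1, g, hg⟩ := hQ
  -- level
  obtain ⟨d, hd⟩ : ∃ d, p.n + d = n1 + (p.n + n0) := ⟨n1 + n0, by ring⟩
  obtain ⟨p', h1, h2, h3, h4⟩ := p.ext S d (p.k + N0) (by omega)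
    (fun η => g (rd η (fun z => 2 ^ (p.n + n0) * z) N1)) (2 ^ (p.n + n0) * N1) b' hb' (by
      rw [hd, rd_pre (fun z hz => by
        exact Nat.mul_lt_mul_of_pos_left hz (by positivity))]
      simp only [E_up]
      exact (hg b' hb'.1).1 h)
  refine ⟨p', h1, fun b hb => ?_⟩
  have h5 : Q p'.b := by
    refine (hg _ p'.inj).2 ?_
    rw [hd, rd_pre (fun z hz => by
        exact Nat.mul_lt_mul_of_pos_left hz (by positivity))] at h4
    simp only [E_up] at h4
    exact h4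
  exact (hr p'.n (by omega) p'.k (by omega) b p'.b hb.1 p'.inj hb.2).2 h5

/-- the Henkin dense sets -/
theorem dense_henkin (S : Setup M R) {m : ℕ} (φ : LA.BoundedFormula Empty (m + 1)) (f : Fin m → ℕ)
    (p : Cnd M R) : ∃ p' : Cnd M R, p ≤ p' ∧
      ((∀ b, p'.Comp b → ¬ ∃ x : M, φ.Realize default (Fin.snoc (fun i => b (f i)) x)) ∨
      (∃ j, ∀ b, p'.Comp b → φ.Realize default (Fin.snoc (fun i => b (f i)) (b j)))) := by
  have hj : ∀ j, EDef (fun b : ℕ → M => φ.Realize default (Fin.snoc (fun i => b (f i)) (b j))) := by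
    intro j
    have := edef_formula φ (Fin.snoc f j : Fin (m + 1) → ℕ) (M := M)
    have he : ∀ b : ℕ → M, (fun i => b ((Fin.snoc f j : Fin (m + 1) → ℕ) i)) =
        (Fin.snoc (fun i => b (f i)) (b j) : Fin (m + 1) → M) := by
      intro b
      funext i
      refine Fin.lastCases ?_ (fun i => ?_) i
      · simp
      · simp
    simpa only [he] using this
  obtain ⟨k0, hk0⟩ : ∃ k0, ∀ i, f i < k0 := by
    refine ⟨(Finset.univ.sup f) + 1, fun i => ?_⟩
    have := Finset.le_sup (f := f) (Finset.mem_univ i)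
    omega
  have hex : EDef (fun b : ℕ → M => ∃ x, φ.Realize default (Fin.snoc (fun i => b (f i)) x)) := by
    refine edef_exval (fun (b : ℕ → M) x => φ.Realize default (Fin.snoc (fun i => b (f i)) x)) k0 ?_ hj
    intro b b' h x
    have : (fun i => b (f i)) = fun i => b' (f i) := by
      funext i
      exact (h _ (hk0 i)).symm
    rw [this]
  obtain ⟨n1, N1, hr⟩ := edef_raise hex
  obtain ⟨p1, hp1, hn1, hk1⟩ := p.raise S (n1 + N1 + k0)
  by_cases hQ : ∃ x : M, φ.Realize default (Fin.snoc (fun i => p1.b (f i)) x)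
  · obtain ⟨x, hx⟩ := hQ
    by_cases hxj : ∃ j < p1.k, p1.b j = x
    · obtain ⟨j, -, rfl⟩ := hxj
      obtain ⟨p2, hp2, h2⟩ := p1.ext_edef S (hj j) p1.b p1.comp_self hx
      exact ⟨p2, hp1.trans hp2, Or.inr ⟨j, h2⟩⟩
    · push Not at hxj
      obtain ⟨b', hb', h1, h2⟩ := inj_put p1.b p1.inj p1.k x hxj
      obtain ⟨p2, hp2, h3⟩ := p1.ext_edef S (hj p1.k) b' (p1.comp_of_agree hb' h1) (by
        rw [h2]
        have : (fun i => b' (f i)) = fun i => p1.b (f i) := by
          funext i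
          exact h1 _ (by have := hk0 i; omega)
        rw [this]
        exact hx)
      exact ⟨p2, hp1.trans hp2, Or.inr ⟨p1.k, h3⟩⟩
  · refine ⟨p1, hp1, Or.inl fun b hb => ?_⟩
    exact fun h => hQ ((hr p1.n (by omega) p1.k (by omega) b p1.b hb.1 p1.inj hb.2).1 h)

end Pool.Agent.Helper227.EN
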