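import Pool.Agent.Helper227.EN.Cond

set_option autoImplicit false

open MeasureTheory Encodable FirstOrder FirstOrder.Language
open scoped ENNReal

namespace Pool.Agent.Helper227.EN

variable {M : Type} [LA.Structure M] {R : Set (ℕ → Bool)}

/-- position in the level `n + 1` type of the bit saying that `u` is an initial segment of the
atomic diagram of a sequence agreeing below `k` -/
def colp (n k : ℕ) (u : List Bool) : ℕ := 2 ^ n * (2 * Nat.pair k (encode u) + 1)

theorem E_colp (n k : ℕ) (u : List Bool) (b : ℕ → M) :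
    E (n + 1) b (colp n k u) = true ↔ ∃ b' : ℕ → M, Function.Injective b' ∧
      (∀ i < k, b' i = b i) ∧ pre (Dg b') u.length = u := by
  unfold colp
  rw [E_low]
  exact E_col b 0 k u

theorem Pos_colp (n k k' : ℕ) (h : k ≤ k') (u : List Bool) : Pos (n + 1) k' (colp n k u) := by
  unfold colp
  rw [add_comm n 1, Pos_up]
  right
  have h1 : (2 * Nat.pair k (encode u) + 1) / 2 = Nat.pair k (encode u) := by omega
  rw [h1, Nat.unpair_pair]
  exact ⟨by omega, h⟩

theorem primrec_colp (n k : ℕ) : Primrec (colp n k) := by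
  unfold colp
  exact Primrec.nat_mul.comp (Primrec.const _) (Primrec.succ.comp (Primrec.nat_mul.comp
    (Primrec.const 2) (Primrec₂.natPair.comp (Primrec.const k) Primrec.encode)))

/-- the condition on pairs `(Z, y)`: strings in the column `k1` of `y` only give values of
the `i`-th column of the functional `G` which agree with `Z` -/
def KH (G : List Bool × ℕ × Bool → Prop) (n k1 i : ℕ) (x : List Bool × List Bool) : Prop :=
  ∃ u : List Bool, ∃ l : ℕ, ∃ v : Bool, (x.2[colp n k1 u]? = some true ∧ G (u, Nat.pair i l, v)) ∧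
    x.1[l]? = some (!v)

theorem s1_KH {G : List Bool × ℕ × Bool → Prop} (hG : S1 G) (n k1 i : ℕ) : S1 (KH G n k1 i) := by
  unfold KH
  refine S1.ex (S1.ex (S1.ex (S1.and (S1.and (S1.of_prim ?_) (hG.comp ?_)) (S1.of_prim ?_))))
  · exact Primrec.eq.comp (Primrec.list_getElem?.comp
      (Primrec.snd.comp (Primrec.fst.comp (Primrec.fst.comp Primrec.fst)))
      ((primrec_colp n k1).comp (Primrec.snd.comp (Primrec.fst.comp Primrec.fst))))
      (Primrec.const _)
  · exact (Primrec.snd.comp (Primrec.fst.comp Primrec.fst)).pair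
      ((Primrec₂.natPair.comp (Primrec.const i) (Primrec.snd.comp Primrec.fst)).pair Primrec.snd)
  · exact Primrec.eq.comp (Primrec.list_getElem?.comp
      (Primrec.fst.comp (Primrec.fst.comp (Primrec.fst.comp Primrec.fst)))
      (Primrec.snd.comp Primrec.fst))
      (Primrec.option_some.comp ((Primrec.dom_bool Bool.not).comp Primrec.snd))

theorem KH_iff {G : List Bool × ℕ × Bool → Prop} (n k1 i : ℕ) (Z y : ℕ → Bool) :
    (∀ s, ¬ KH G n k1 i (pre Z s, pre y s)) ↔
      ∀ (u : List Bool) (l : ℕ) (v : Bool), y (colp n k1 u) = true → G (u, Nat.pair i l, v) → v = Z l := by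
  constructor
  · intro h u l v h1 h2
    by_contra hv
    refine h (max (colp n k1 u + 1) (l + 1)) ⟨u, l, v, ⟨?_, h2⟩, ?_⟩
    · simp only
      rw [pre_getElem? _ _ _ (by omega), h1]
    · simp only
      rw [pre_getElem? _ _ _ (by omega)]
      cases v <;> cases hz : Z l <;> simp_all
  · rintro h s ⟨u, l, v, ⟨h1, h2⟩, h3⟩
    simp only at h1 h3
    have hs : colp n k1 u < s := by
      by_contra hs
      rw [pre_getElem?_none _ _ _ (by omega)] at h1
      cases h1
    have hl : l < s := by
      by_contra hl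
      rw [pre_getElem?_none _ _ _ (by omega)] at h3
      cases h3
    rw [pre_getElem? _ _ _ hs] at h1
    rw [pre_getElem? _ _ _ hl] at h3
    have := h u l v (by simpa using h1) h2
    rw [this] at h3
    cases hz : Z l <;> simp_all

/-- the main dense sets -/
theorem dense_main (S : Setup M R) {G : List Bool × ℕ × Bool → Prop} (hG : S1 G) (p : Cnd M R) :
    ∃ p' : Cnd M R, p ≤ p' ∧
      ((∃ i, ∃ Z, Z ∉ R ∧ ∀ b, p'.Comp b → ∀ s l v, G (pre (Dg b) s, Nat.pair i l, v) → v = Z l) ∨
      (∃ Y ∈ R, ∀ q, p' ≤ q → ∀ i, ∃ q', q ≤ q' ∧ ∃ l v s, s ≤ q'.k ∧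
        G (pre (Dg q'.b) s, Nat.pair i l, v) ∧ v ≠ Y l)) := by
  obtain ⟨p1, hp1, hn1, -⟩ := p.raise S 1
  obtain ⟨n, hn⟩ : ∃ n, p1.n = n + 1 := ⟨p1.n - 1, by omega⟩
  obtain ⟨Y, hY, hMY⟩ := p1.good (Tr M (n + 1)) (S.tr _)
  by_cases halt : ∀ q, p1 ≤ q → ∀ i, ∃ q', q ≤ q' ∧ ∃ l v s, s ≤ q'.k ∧
        G (pre (Dg q'.b) s, Nat.pair i l, v) ∧ v ≠ Y l
  · exact ⟨p1, hp1, Or.inr ⟨Y, hY, halt⟩⟩
  push Not at halt
  obtain ⟨q, hq, i, hqi⟩ := halt
  -- Claim 1
  have hclaim1 : ∀ b : ℕ → M, Function.Injective b → (∀ j < q.k, b j = q.b j) → ∀ s l v,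
      G (pre (Dg b) s, Nat.pair i l, v) → v = Y l := by
    intro b hb hbq s l v hGv
    by_contra hv
    obtain ⟨q', h1, h2, h3, h4⟩ := q.ext S 0 (max q.k s) (le_max_left _ _)
      (fun η => rd η (fun z => 2 ^ q.n * z) s = pre (Dg b) s) (2 ^ q.n * s) b
      (q.comp_of_agree hb hbq) (by
        rw [rd_pre (fun z hz => Nat.mul_lt_mul_of_pos_left hz (by positivity))]
        congr 1
        funext z
        have := E_up 0 q.n b z
        rw [zero_add] at this
        exact this)
    have h5 : pre (Dg q'.b) s = pre (Dg b) s := by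
      rw [rd_pre (fun z hz => Nat.mul_lt_mul_of_pos_left hz (by positivity))] at h4
      rw [← h4]
      congr 1
      funext z
      have := E_up 0 q.n q'.b z
      rw [zero_add] at this
      exact this.symm
    exact hv (hqi q' h1 l v s (by rw [h3]; exact le_max_right _ _) (by rw [h5]; exact hGv))
  -- the class
  have hK := s1_KH hG n q.k i
  have hpr : ∀ z, Pos p1.n p1.k z → Pr p1.n p1.k p1.b z = E p1.n p1.b z := fun z hz => by
    simp [Pr, hz]
  obtain ⟨C, hC, eC⟩ := ext_class p1.n p1.k 0 hK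
  -- the class of all Z, with oracle O = Pr ⊕ Tr
  obtain ⟨D0, hD0, eD0⟩ : ∃ D0 : ℕ × List Bool × List Bool × List Bool → Prop, S1 D0 ∧
      ∀ (m : ℕ) (P T y Z : ℕ → Bool),
        (¬ ∃ s, D0 (m, pre (Helper227.join P T) s, pre y s, pre Z s)) ↔
        (∀ t, T (encode (pre y t)) = true) ∧ (∀ z, Pos p1.n p1.k z → y z = P z) ∧
        ∀ t, ¬ KH G n q.k i (pre Z t, pre y t) := by
    refine ⟨fun x => (∃ t : ℕ, t ≤ x.2.2.1.length ∧ x.2.1[2 * encode (x.2.2.1.take t) + 1]? = some false) ∨
      ((∃ z : ℕ, ∃ c : Bool, (Pos p1.n p1.k z ∧ x.2.1[2 * z]? = some c) ∧ x.2.2.1[z]? = some (!c)) ∨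
      KH G n q.k i (x.2.2.2, x.2.2.1)), ?_, ?_⟩
    · refine S1.or (S1.ex (S1.of_prim (PrimrecPred.and ?_ ?_)))
        (S1.or (S1.ex (S1.ex (S1.of_prim (PrimrecPred.and (PrimrecPred.and ?_ ?_) ?_))))
          (hK.comp ?_))
      · exact Primrec.nat_le.comp Primrec.snd (Primrec.list_length.comp
          (Primrec.fst.comp (Primrec.snd.comp (Primrec.snd.comp Primrec.fst))))
      · refine Primrec.eq.comp (Primrec.list_getElem?.comp
          (Primrec.fst.comp (Primrec.snd.comp Primrec.fst)) ?_) (Primrec.const _)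
        exact Primrec.succ.comp (Primrec.nat_mul.comp (Primrec.const 2) (Primrec.encode.comp
          (Primrec.list_take.comp Primrec.snd
            (Primrec.fst.comp (Primrec.snd.comp (Primrec.snd.comp Primrec.fst))))))
      · exact (primrec_Pos p1.n p1.k).comp (Primrec.snd.comp Primrec.fst)
      · exact Primrec.eq.comp (Primrec.list_getElem?.comp
          (Primrec.fst.comp (Primrec.snd.comp (Primrec.fst.comp Primrec.fst)))
          (Primrec.nat_mul.comp (Primrec.const 2) (Primrec.snd.comp Primrec.fst)))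
          (Primrec.option_some.comp Primrec.snd)
      · exact Primrec.eq.comp (Primrec.list_getElem?.comp
          (Primrec.fst.comp (Primrec.snd.comp (Primrec.snd.comp (Primrec.fst.comp Primrec.fst))))
          (Primrec.snd.comp Primrec.fst))
          (Primrec.option_some.comp ((Primrec.dom_bool Bool.not).comp Primrec.snd))
      · exact (Primrec.snd.comp (Primrec.snd.comp Primrec.snd)).pair
          (Primrec.fst.comp (Primrec.snd.comp Primrec.snd))
    · intro m P T y Z
      simp only [length_pre, not_exists, not_or, not_and]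
      constructor
      · intro h
        refine ⟨fun t => ?_, fun z hz => ?_, fun t => (h t).2.2⟩
        · obtain ⟨h1, -⟩ := h (max t (2 * encode (pre y t) + 2))
          have h2 := h1 t (le_max_left _ _)
          rw [take_pre _ _ _ (le_max_left _ _), pre_getElem? _ _ _ (by omega), join_odd] at h2
          simpa using h2
        · obtain ⟨-, h1, -⟩ := h (2 * z + 1)
          have h2 := h1 z (P z) ⟨hz, by rw [pre_getElem? _ _ _ (by omega), join_even]⟩
          rw [pre_getElem? _ _ _ (by omega)] at h2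
          simp only [Option.some.injEq] at h2
          cases hy : y z <;> cases hp : P z <;> simp_all
      · rintro ⟨h1, h2, h3⟩ s
        refine ⟨fun t ht => ?_, fun z c hzc => ?_, h3 s⟩
        · rw [take_pre _ _ _ ht]
          intro hcon
          by_cases hs : 2 * encode (pre y t) + 1 < s
          · rw [pre_getElem? _ _ _ hs, join_odd, h1] at hcon
            cases hcon
          · rw [pre_getElem?_none _ _ _ (by omega)] at hcon
            cases hcon
        · obtain ⟨hz, hc⟩ := hzc
          intro hcon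
          have hs : 2 * z < s := by
            by_contra hs
            rw [pre_getElem?_none _ _ _ (by omega)] at hc
            cases hc
          rw [pre_getElem? _ _ _ hs, join_even] at hc
          rw [pre_getElem? _ _ _ (by omega), h2 z hz] at hcon
          simp only [Option.some.injEq] at hc hcon
          rw [hc] at hcon
          cases c <;> simp at hcon
  obtain ⟨D, hD, eD⟩ := proj hD0
  have hD' : S1 fun x : List Bool × List Bool => D (0, x.1, x.2) :=
    hD.comp ((Primrec.const 0).pair (Primrec.fst.pair Primrec.snd))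
  have hV : ∀ Z, Z ∈ PiC (fun x : List Bool × List Bool => D (0, x.1, x.2))
      (Helper227.join (Pr p1.n p1.k p1.b) (Tr M (n + 1))) ↔
      ∃ y : ℕ → Bool, (∀ t, Tr M (n + 1) (encode (pre y t)) = true) ∧
        (∀ z, Pos p1.n p1.k z → y z = Pr p1.n p1.k p1.b z) ∧
        ∀ t, ¬ KH G n q.k i (pre Z t, pre y t) := by
    intro Z
    have h1 := eD 0 (Helper227.join (Pr p1.n p1.k p1.b) (Tr M (n + 1))) Z
    have h2 := not_congr h1
    rw [not_exists, not_forall] at h2
    refine Iff.trans h2 ?_
    exact exists_congr fun y => eD0 0 _ _ y Z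
  have hYV : Y ∈ PiC (fun x : List Bool × List Bool => D (0, x.1, x.2))
      (Helper227.join (Pr p1.n p1.k p1.b) (Tr M (n + 1))) := by
    rw [hV]
    refine ⟨E (n + 1) q.b, fun t => tr_self q.inj t, fun z hz => ?_, ?_⟩
    · rw [hpr z hz, ← hn]
      exact hq.2.2 z hz
    · rw [KH_iff]
      intro u l v hu hGu
      rw [E_colp] at hu
      obtain ⟨b', hb', h1, h2⟩ := hu
      refine hclaim1 b' hb' h1 u.length l v ?_
      rw [h2]
      exact hGu
  have hpos := pos_of_random hMY hD' hYV
  have hO : Good R (Helper227.join (Pr p1.n p1.k p1.b) (Tr M (n + 1))) :=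
    Good.join S.join p1.good (S.tr _)
  obtain ⟨Z, hZV, hZR, hZG⟩ := good_random S.countable hO hpos
  rw [hV] at hZV
  obtain ⟨y, hy1, hy2, hy3⟩ := hZV
  obtain ⟨b1, hb1, hby⟩ := S.real _ y hy1
  have hPZ : Good R (Helper227.join (Pr p1.n p1.k p1.b) Z) := by
    refine hZG.mono (join_tLe ?_ (tLe_join_right _ _))
    exact (tLe_join_left _ _).trans (tLe_join_left _ _)
  obtain ⟨b2, hb2, hag, hKb, hgood⟩ := ext_gen S p1.n p1.k 0 p1.b Z hPZ hK b1 hb1 (by
    intro z hz
    rw [← hpr z hz, ← hy2 z hz, ← hby, hn]) (by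
    rw [add_zero, hn, hby]
    exact hy3)
  rw [add_zero] at hKb hgood
  refine ⟨⟨p1.n, max p1.k q.k, b2, hb2, hgood.mono (Pr_tLe _ _ _)⟩,
    hp1.trans ⟨le_rfl, le_max_left _ _, hag⟩, Or.inl ⟨i, Z, hZR, ?_⟩⟩
  rintro b ⟨hb, hcomp⟩ s l v hGv
  simp only at hcomp
  rw [hn] at hKb hcomp
  rw [KH_iff] at hKb
  refine hKb (pre (Dg b) s) l v ?_ hGv
  rw [← hcomp _ (Pos_colp n q.k _ (le_max_right _ _) _), E_colp]
  exact ⟨b, hb, fun _ _ => rfl, by rw [length_pre]⟩

end Pool.Agent.Helper227.EN
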