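import Pool.Agent.Helper227.EN.Rnd
import Pool.Agent.Helper227.ENJ.All

set_option autoImplicit false

open MeasureTheory Encodable FirstOrder FirstOrder.Language
open scoped ENNReal

namespace Pool.Agent.Helper227.EN

/-- The data used in the construction. -/
structure Setup (M : Type) [LA.Structure M] (R : Set (ℕ → Bool)) : Prop where
  countable : R.Countable
  nonempty : R.Nonempty
  join : ∀ X ∈ R, ∀ Y ∈ R, Helper227.join X Y ∈ R
  tr : ∀ n, Tr M n ∈ R
  rand : ∀ W ∈ R, ∃ Y ∈ R, MLR W Y
  real : ∀ (n : ℕ) (y : ℕ → Bool), (∀ s, Tr M n (encode (pre y s)) = true) →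
    ∃ b : ℕ → M, Function.Injective b ∧ E n b = y

variable {M : Type} [LA.Structure M]

theorem E_up (n d : ℕ) (b : ℕ → M) (z : ℕ) : E (n + d) b (2 ^ d * z) = E n b z := by
  induction d with
  | zero => simp
  | succ d ih =>
    have h1 : 2 ^ (d + 1) * z = 2 * (2 ^ d * z) := by ring
    rw [h1, ← add_assoc]
    show Helper227.join (E (n + d) b) _ (2 * (2 ^ d * z)) = _
    rw [join_even, ih]

theorem Pos_up (n d k z : ℕ) : Pos (n + d) k (2 ^ d * z) ↔ Pos n k z := by
  induction d with
  | zero => simp
  | succ d ih =>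
    have h1 : 2 ^ (d + 1) * z = 2 * (2 ^ d * z) := by ring
    rw [h1, ← add_assoc]
    show ((2 * (2 ^ d * z)) % 2 = 0 ∧ Pos (n + d) k ((2 * (2 ^ d * z)) / 2)) ∨ _ ↔ _
    have h2 : (2 * (2 ^ d * z)) % 2 = 0 := by omega
    have h3 : (2 * (2 ^ d * z)) / 2 = 2 ^ d * z := by omega
    rw [h2, h3, ih]
    simp

theorem primrec_Pos (n k : ℕ) : PrimrecPred (Pos n k) := by
  induction n with
  | zero => exact Primrec.nat_lt.comp Primrec.id (Primrec.const k)
  | succ n ih =>
    refine PrimrecPred.or (PrimrecPred.and ?_ ?_) (PrimrecPred.and ?_ ?_)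
    · exact Primrec.eq.comp (Primrec.nat_mod.comp Primrec.id (Primrec.const 2)) (Primrec.const 0)
    · exact ih.comp (Primrec.nat_div.comp Primrec.id (Primrec.const 2))
    · exact Primrec.eq.comp (Primrec.nat_mod.comp Primrec.id (Primrec.const 2)) (Primrec.const 1)
    · exact Primrec.nat_le.comp (Primrec.fst.comp (Primrec.unpair.comp
        (Primrec.nat_div.comp Primrec.id (Primrec.const 2)))) (Primrec.const k)

/-- the information carried by a condition -/
noncomputable def Pr (n k : ℕ) (b : ℕ → M) : ℕ → Bool := fun z =>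
  open Classical in if Pos n k z then E n b z else false

theorem Pr_tLe (n k : ℕ) (b : ℕ → M) : TLe (Pr n k b) (E n b) := by
  classical
  rw [tLe_iff]
  refine ⟨fun x => (Pos n k x.2.1 ∧ x.1[x.2.1]? = some x.2.2) ∨ (¬ Pos n k x.2.1 ∧ x.2.2 = false),
    S1.of_prim ?_, ?_, ?_⟩
  · refine PrimrecPred.or (PrimrecPred.and ?_ ?_) (PrimrecPred.and ?_ ?_)
    · exact (primrec_Pos n k).comp (Primrec.fst.comp Primrec.snd)
    · exact Primrec.eq.comp (Primrec.list_getElem?.comp Primrec.fst (Primrec.fst.comp Primrec.snd))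
        (Primrec.option_some.comp (Primrec.snd.comp Primrec.snd))
    · exact ((primrec_Pos n k).comp (Primrec.fst.comp Primrec.snd)).not
    · exact Primrec.eq.comp (Primrec.snd.comp Primrec.snd) (Primrec.const false)
  · rintro σ τ z c h (⟨h1, h2⟩ | h1)
    · refine Or.inl ⟨h1, ?_⟩
      obtain ⟨ρ, rfl⟩ := h
      have : z < σ.length := by
        by_contra hc
        simp only at h2
        rw [List.getElem?_eq_none (by omega)] at h2
        cases h2
      simp only at h2 ⊢
      rw [List.getElem?_append_left this]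
      exact h2
    · exact Or.inr h1
  · intro z c
    simp only [Pr]
    split_ifs with hp
    · constructor
      · rintro rfl
        exact ⟨z + 1, Or.inl ⟨hp, pre_getElem? _ _ _ (Nat.lt_succ_self z)⟩⟩
      · rintro ⟨s, ⟨_, h⟩ | ⟨h, _⟩⟩
        · by_cases hz : z < s
          · rw [pre_getElem? _ _ _ hz] at h
            simpa using h
          · rw [pre_getElem?_none _ _ _ (by omega)] at h
            cases h
        · exact absurd hp h
    · constructor
      · rintro rfl
        exact ⟨0, Or.inr ⟨hp, rfl⟩⟩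
      · rintro ⟨s, ⟨h, _⟩ | ⟨_, h⟩⟩
        · exact absurd h hp
        · exact h.symm

theorem Pr_congr {n k : ℕ} {b b' : ℕ → M} (h : ∀ z, Pos n k z → E n b z = E n b' z) :
    Pr n k b = Pr n k b' := by
  funext z
  simp only [Pr]
  split_ifs with hp
  · exact h z hp
  · rfl

theorem tr_self {n : ℕ} {b : ℕ → M} (hb : Function.Injective b) (s : ℕ) :
    Tr M n (encode (pre (E n b) s)) = true := by
  simp only [Tr, decide_eq_true_eq]
  exact ⟨pre (E n b) s, encodek _, b, hb, by rw [length_pre]⟩

/-- The class used in the extension lemma. -/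
theorem ext_class (n k d : ℕ) {K : List Bool × List Bool → Prop} (hK : S1 K) :
    ∃ C : List Bool × List Bool → Prop, S1 C ∧ ∀ (P Q T y : ℕ → Bool),
      y ∈ PiC C (Helper227.join (Helper227.join P Q) T) ↔
        (∀ t, T (encode (pre y t)) = true) ∧ (∀ z, Pos n k z → y (2 ^ d * z) = P z) ∧
        ∀ t, ¬ K (pre Q t, pre y t) := by
  refine ⟨fun x => (∃ t : ℕ, t ≤ x.2.length ∧ x.1[2 * encode (x.2.take t) + 1]? = some false) ∨
    ((∃ z : ℕ, ∃ c : Bool, (Pos n k z ∧ x.1[4 * z]? = some c) ∧ x.2[2 ^ d * z]? = some (!c)) ∨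
    (∃ t : ℕ, (4 * t ≤ x.1.length ∧ t ≤ x.2.length) ∧
      K (rd x.1 (fun i => 4 * i + 2) t, x.2.take t))), ?_, ?_⟩
  · refine S1.or (S1.ex (S1.of_prim (PrimrecPred.and ?_ ?_)))
      (S1.or (S1.ex (S1.ex (S1.of_prim (PrimrecPred.and (PrimrecPred.and ?_ ?_) ?_))))
        (S1.ex (S1.and (S1.of_prim (PrimrecPred.and ?_ ?_)) (hK.comp ?_))))
    · exact Primrec.nat_le.comp Primrec.snd (Primrec.list_length.comp (Primrec.snd.comp Primrec.fst))
    · refine Primrec.eq.comp (Primrec.list_getElem?.comp (Primrec.fst.comp Primrec.fst) ?_)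
        (Primrec.const _)
      exact Primrec.succ.comp (Primrec.nat_mul.comp (Primrec.const 2) (Primrec.encode.comp
        (Primrec.list_take.comp Primrec.snd (Primrec.snd.comp Primrec.fst))))
    · exact (primrec_Pos n k).comp (Primrec.snd.comp Primrec.fst)
    · exact Primrec.eq.comp (Primrec.list_getElem?.comp
        (Primrec.fst.comp (Primrec.fst.comp Primrec.fst))
        (Primrec.nat_mul.comp (Primrec.const 4) (Primrec.snd.comp Primrec.fst)))
        (Primrec.option_some.comp Primrec.snd)
    · exact Primrec.eq.comp (Primrec.list_getElem?.comp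
        (Primrec.snd.comp (Primrec.fst.comp Primrec.fst))
        (Primrec.nat_mul.comp (Primrec.const _) (Primrec.snd.comp Primrec.fst)))
        (Primrec.option_some.comp ((Primrec.dom_bool Bool.not).comp Primrec.snd))
    · exact Primrec.nat_le.comp (Primrec.nat_mul.comp (Primrec.const 4) Primrec.snd)
        (Primrec.list_length.comp (Primrec.fst.comp Primrec.fst))
    · exact Primrec.nat_le.comp Primrec.snd (Primrec.list_length.comp (Primrec.snd.comp Primrec.fst))
    · refine (primrec_rd (g := fun _ i => 4 * i + 2) (Primrec.fst.comp Primrec.fst) ?_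
        Primrec.snd).pair (Primrec.list_take.comp Primrec.snd (Primrec.snd.comp Primrec.fst))
      exact Primrec.nat_add.comp (Primrec.nat_mul.comp (Primrec.const 4) Primrec.snd)
        (Primrec.const 2)
  · intro P Q T y
    obtain ⟨W, hW⟩ : ∃ W : ℕ → Bool, W = Helper227.join (Helper227.join P Q) T := ⟨_, rfl⟩
    have hT : ∀ x, W (2 * x + 1) = T x := fun x => by rw [hW, join_odd]
    have hP : ∀ z, W (4 * z) = P z := fun z => by
      have : 4 * z = 2 * (2 * z) := by ring
      rw [hW, this, join_even, join_even]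
    have hQ : ∀ z, W (4 * z + 2) = Q z := fun z => by
      have : 4 * z + 2 = 2 * (2 * z + 1) := by ring
      rw [hW, this, join_even, join_odd]
    rw [← hW]
    simp only [PiC, Set.mem_ofPred_eq, length_pre, not_or, not_exists, not_and]
    constructor
    · intro h
      refine ⟨fun t => ?_, fun z hz => ?_, fun t hK' => ?_⟩
      · obtain ⟨h1, -⟩ := h (max t (2 * encode (pre y t) + 2))
        have h2 := h1 t (le_max_left _ _)
        rw [take_pre _ _ _ (le_max_left _ _), pre_getElem? _ _ _ (by omega), hT] at h2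
        simpa using h2
      · obtain ⟨-, h1, -⟩ := h (max (4 * z + 1) (2 ^ d * z + 1))
        have h2 := h1 z (P z) ⟨hz, by rw [pre_getElem? _ _ _ (by omega), hP]⟩
        rw [pre_getElem? _ _ _ (by omega)] at h2
        simp only [Option.some.injEq] at h2
        cases hy : y (2 ^ d * z) <;> cases hp : P z <;> simp_all
      · obtain ⟨-, -, h1⟩ := h (4 * t)
        refine h1 t ⟨le_rfl, by omega⟩ ?_
        rw [rd_pre (fun i hi => by omega), take_pre _ _ _ (by omega)]
        simp only [hQ]
        exact hK'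
    · rintro ⟨h1, h2, h3⟩ s
      refine ⟨fun t ht => ?_, fun z c hzc => ?_, fun t htt => ?_⟩
      · rw [take_pre _ _ _ ht]
        intro hcon
        by_cases hs : 2 * encode (pre y t) + 1 < s
        · rw [pre_getElem? _ _ _ hs, hT, h1] at hcon
          cases hcon
        · rw [pre_getElem?_none _ _ _ (by omega)] at hcon
          cases hcon
      · obtain ⟨hz, hc⟩ := hzc
        intro hcon
        have hs : 4 * z < s := by
          by_contra hs
          rw [pre_getElem?_none _ _ _ (by omega)] at hc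
          cases hc
        have hs' : 2 ^ d * z < s := by
          by_contra hs'
          rw [pre_getElem?_none _ _ _ (by omega)] at hcon
          cases hcon
        rw [pre_getElem? _ _ _ hs, hP] at hc
        rw [pre_getElem? _ _ _ hs', h2 z hz] at hcon
        simp only [Option.some.injEq] at hc hcon
        rw [hc] at hcon
        cases c <;> simp at hcon
      · obtain ⟨ht, ht'⟩ := htt
        rw [rd_pre (fun i hi => by omega), take_pre _ _ _ ht']
        simp only [hQ]
        exact h3 t

/-- The extension lemma. -/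
theorem ext_gen {R : Set (ℕ → Bool)} (S : Setup M R) (n k d : ℕ) (b : ℕ → M) (Q : ℕ → Bool)
    (hQ : Good R (Helper227.join (Pr n k b) Q)) {K : List Bool × List Bool → Prop} (hK : S1 K)
    (b' : ℕ → M) (hb' : Function.Injective b') (hag : ∀ z, Pos n k z → E n b' z = E n b z)
    (hK' : ∀ s, ¬ K (pre Q s, pre (E (n + d) b') s)) :
    ∃ b'' : ℕ → M, Function.Injective b'' ∧ (∀ z, Pos n k z → E n b'' z = E n b z) ∧
      (∀ s, ¬ K (pre Q s, pre (E (n + d) b'') s)) ∧ Good R (E (n + d) b'') := by
  obtain ⟨C, hC, eC⟩ := ext_class n k d hK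
  have h1 : Good R (Helper227.join (Helper227.join (Pr n k b) Q) (Tr M (n + d))) :=
    Good.join S.join hQ (S.tr _)
  have hPr : ∀ z, Pos n k z → Pr n k b z = E n b z := fun z hz => by simp [Pr, hz]
  obtain ⟨y, hy, hg⟩ := good_basis S.countable S.nonempty S.join h1 hC ⟨E (n + d) b', by
    rw [eC]
    refine ⟨fun t => tr_self hb' t, fun z hz => ?_, hK'⟩
    rw [E_up, hag z hz, hPr z hz]⟩
  rw [eC] at hy
  obtain ⟨hy1, hy2, hy3⟩ := hy
  obtain ⟨b'', hb'', rfl⟩ := S.real _ y hy1
  refine ⟨b'', hb'', fun z hz => ?_, hy3, hg.mono (tLe_join_right _ _)⟩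
  rw [← E_up n d, hy2 z hz, hPr z hz]

end Pool.Agent.Helper227.EN
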