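import Pool.Agent.Helper227.Defs

set_option autoImplicit false

open FirstOrder FirstOrder.Language

namespace Pool.Agent.Helper227.EN

/-- function symbols of the language of arithmetic -/
inductive AF : ℕ → Type
  | zero : AF 0
  | one : AF 0
  | add : AF 2
  | mul : AF 2

/-- relation symbols of the language of arithmetic -/
inductive AR : ℕ → Type
  | lt : AR 2

/-- The first-order language of arithmetic `{0, 1, +, ·, <}` (with equality). -/
def LA : FirstOrder.Language.{0, 0} := ⟨AF, AR⟩

/-- The term `0`. -/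
def t0 {α : Type} : LA.Term α := Constants.term (L := LA) AF.zero
/-- The term `1`. -/
def t1 {α : Type} : LA.Term α := Constants.term (L := LA) AF.one
/-- The term `s + t`. -/
def tadd {α : Type} (s t : LA.Term α) : LA.Term α := Functions.apply₂ (L := LA) AF.add s t
/-- The term `s · t`. -/
def tmul {α : Type} (s t : LA.Term α) : LA.Term α := Functions.apply₂ (L := LA) AF.mul s t
/-- The atomic formula `s < t`. -/
def flt {α : Type} {n : ℕ} (s t : LA.Term (α ⊕ Fin n)) : LA.BoundedFormula α n :=
  Relations.boundedFormula₂ (L := LA) AR.lt s t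

/-- The numeral of `n`: `0`, `0 + 1`, `(0 + 1) + 1`, ... -/
def num {α : Type} : ℕ → LA.Term α
  | 0 => t0
  | n + 1 => tadd (num n) t1

section axioms

/-- the bound variable number `i` (counted from the outermost quantifier) -/
abbrev bv {α : Type} {n : ℕ} (i : Fin n) : LA.Term (α ⊕ Fin n) := Term.var (Sum.inr i)

/-- associativity of addition -/
def axAddAssoc : LA.Sentence :=
  ∀' ∀' ∀' (tadd (tadd (bv 0) (bv 1)) (bv 2) =' tadd (bv 0) (tadd (bv 1) (bv 2)))
/-- commutativity of addition -/
def axAddComm : LA.Sentence :=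
  ∀' ∀' (tadd (bv 0) (bv 1) =' tadd (bv 1) (bv 0))
/-- associativity of multiplication -/
def axMulAssoc : LA.Sentence :=
  ∀' ∀' ∀' (tmul (tmul (bv 0) (bv 1)) (bv 2) =' tmul (bv 0) (tmul (bv 1) (bv 2)))
/-- commutativity of multiplication -/
def axMulComm : LA.Sentence :=
  ∀' ∀' (tmul (bv 0) (bv 1) =' tmul (bv 1) (bv 0))
/-- distributivity -/
def axDistrib : LA.Sentence :=
  ∀' ∀' ∀' (tmul (bv 0) (tadd (bv 1) (bv 2)) =' tadd (tmul (bv 0) (bv 1)) (tmul (bv 0) (bv 2)))
/-- `x + 0 = x` -/
def axAddZero : LA.Sentence :=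
  ∀' (tadd (bv 0) t0 =' (bv 0))
/-- `x * 0 = 0` -/
def axMulZero : LA.Sentence :=
  ∀' (tmul (bv 0) t0 =' t0)
/-- `x * 1 = x` -/
def axMulOne : LA.Sentence :=
  ∀' (tmul (bv 0) t1 =' (bv 0))
/-- `<` is transitive -/
def axLtTrans : LA.Sentence :=
  ∀' ∀' ∀' (flt (bv 0) (bv 1) ⟹ flt (bv 1) (bv 2) ⟹ flt (bv 0) (bv 2))
/-- `<` is irreflexive -/
def axLtIrrefl : LA.Sentence :=
  ∀' (∼(flt (bv 0) (bv 0)))
/-- `<` is total -/
def axLtTotal : LA.Sentence :=
  ∀' ∀' (flt (bv 0) (bv 1) ⊔ (((bv 0) =' (bv 1)) ⊔ flt (bv 1) (bv 0)))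
/-- `x < y → x + z < y + z` -/
def axAddLt : LA.Sentence :=
  ∀' ∀' ∀' (flt (bv 0) (bv 1) ⟹ flt (tadd (bv 0) (bv 2)) (tadd (bv 1) (bv 2)))
/-- `0 < z → x < y → x * z < y * z` -/
def axMulLt : LA.Sentence :=
  ∀' ∀' ∀' (flt t0 (bv 2) ⟹ flt (bv 0) (bv 1) ⟹ flt (tmul (bv 0) (bv 2)) (tmul (bv 1) (bv 2)))
/-- `x < y → ∃ z, x + z = y` -/
def axDiff : LA.Sentence :=
  ∀' ∀' (flt (bv 0) (bv 1) ⟹ ∃' (tadd (bv 0) (bv 2) =' (bv 1)))
/-- `0 < 1` -/
def axZeroLtOne : LA.Sentence :=
  flt t0 t1
/-- `0 < x → 1 < x ∨ 1 = x` -/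
def axDiscrete : LA.Sentence :=
  ∀' (flt t0 (bv 0) ⟹ (flt t1 (bv 0) ⊔ (t1 =' (bv 0))))
/-- `0 < x ∨ 0 = x` -/
def axNonneg : LA.Sentence :=
  ∀' (flt t0 (bv 0) ⊔ (t0 =' (bv 0)))

/-- The axioms of `PA⁻`, the theory of the nonnegative parts of discretely ordered rings. -/
def PAminus : LA.Theory :=
  {axAddAssoc, axAddComm, axMulAssoc, axMulComm, axDistrib, axAddZero,
    axMulZero, axMulOne, axLtTrans, axLtIrrefl, axLtTotal, axAddLt,
    axMulLt, axDiff, axZeroLtOne, axDiscrete, axNonneg}

/-- Induction for the formula `φ(y, x)` with parameters `y : Fin n` and induction variable `x`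
(the only bound variable in scope):
`∀ y, (∀ x, x = 0 → φ(y, x)) ∧ (∀ x, φ(y, x) → ∀ z, z = x + 1 → φ(y, z)) → ∀ x, φ(y, x)`. -/
noncomputable def indAx {n : ℕ} (φ : LA.BoundedFormula (Empty ⊕ Fin n) 1) : LA.Sentence :=
  Formula.iAlls (Fin n)
    (((∀' (((bv 0) =' t0) ⟹ φ)) ⊓ (∀' (φ ⟹ ∀' (((bv 1) =' tadd (bv 0) t1) ⟹ φ.liftAt 1 0)))) ⟹ ∀' φ)

end axioms

/-- Peano arithmetic: `PA⁻` and induction for all formulas (with parameters). -/
def PA : LA.Theory :=
  PAminus ∪ {σ | ∃ (n : ℕ) (φ : LA.BoundedFormula (Empty ⊕ Fin n) 1), σ = indAx φ}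

/-- `φ` represents the set (with characteristic sequence) `X` in `T`: the theory `T` entails
`φ(n)` for `n ∈ X` and `¬ φ(n)` for `n ∉ X`. -/
def Represents (T : LA.Theory) (φ : LA.Formula (Fin 1)) (X : ℕ → Bool) : Prop :=
  ∀ n, (X n = true → T ⊨ᵇ (φ.subst fun _ => (num n : LA.Term Empty) : LA.Sentence)) ∧
    (X n = false → T ⊨ᵇ (∼(φ.subst fun _ => (num n : LA.Term Empty)) : LA.Sentence))

/-- `Rep(T)`: the family of all sets representable in `T`. -/
def Rep (T : LA.Theory) : Set (ℕ → Bool) := {X | ∃ φ, Represents T φ X}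

/-- `R` is an enumeration of the family `S`: `S = {R_i : i}`, `R_i = {n : ⟨i,n⟩ ∈ R}`. -/
def IsEnum (R : ℕ → Bool) (S : Set (ℕ → Bool)) : Prop :=
  S = Set.range fun i : ℕ => fun n : ℕ => R (Nat.pair i n)

/-- The standard model of arithmetic. -/
@[reducible] def stdStr : LA.Structure ℕ where
  funMap := fun {n} f => match n, f with
    | _, AF.zero => fun _ => 0
    | _, AF.one => fun _ => 1
    | _, AF.add => fun v => v 0 + v 1
    | _, AF.mul => fun v => v 0 * v 1
  RelMap := fun {n} r => match n, r with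
    | _, AR.lt => fun v => v 0 < v 1

/-- The atomic facts about the sequence `b` of elements of a structure, coded as a set:
`⟨0,i,j,l⟩` codes `b i + b j = b l`, `⟨1,i,j,l⟩` codes `b i · b j = b l`, `⟨2,i,j,l⟩` codes
`b i < b j`, `⟨3,i,j,l⟩` codes `0 = b i`, and `⟨4,i,j,l⟩` codes `1 = b i`. -/
noncomputable def Dg {M : Type} [LA.Structure M] (b : ℕ → M) : ℕ → Bool := fun z =>
  open Classical in
  let c := (Nat.unpair z).1
  let i := (Nat.unpair (Nat.unpair z).2).1
  let j := (Nat.unpair (Nat.unpair (Nat.unpair z).2).2).1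
  let l := (Nat.unpair (Nat.unpair (Nat.unpair z).2).2).2
  if c = 0 then decide (Structure.funMap (L := LA) AF.add ![b i, b j] = b l)
  else if c = 1 then decide (Structure.funMap (L := LA) AF.mul ![b i, b j] = b l)
  else if c = 2 then decide (Structure.RelMap (L := LA) AR.lt ![b i, b j])
  else if c = 3 then decide (Structure.funMap (L := LA) AF.zero ![] = b i)
  else if c = 4 then decide (Structure.funMap (L := LA) AF.one ![] = b i)
  else false

/-- The atomic diagram of a structure with universe `ℕ`. -/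
noncomputable def diag (A : LA.Structure ℕ) : ℕ → Bool := @Dg ℕ A id

/-- The statement of the problem: for every completion `T` of `PA` there is a nonstandard model
of `T` with universe `ℕ` such that no enumeration of `Rep(T)` is computable in (the atomic diagram
of) the model. -/
def Statement : Prop :=
  ∀ T : LA.Theory, T.IsComplete → PA ⊆ T →
    ∃ A : LA.Structure ℕ, @FirstOrder.Language.Theory.Model LA ℕ A T ∧ ¬ Nonempty (@FirstOrder.Language.Equiv LA ℕ ℕ A stdStr) ∧
      ∀ R, IsEnum R (Rep T) → ¬ TLe R (diag A)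

/-- Sanity check: meaning of the induction axiom. -/
theorem realize_indAx {M : Type} [LA.Structure M] {n : ℕ}
    (φ : LA.BoundedFormula (Empty ⊕ Fin n) 1) (z o : M)
    (hz : z = Structure.funMap (L := LA) AF.zero ![]) (ho : o = Structure.funMap (L := LA) AF.one ![]) :
    M ⊨ indAx φ ↔ ∀ y : Fin n → M, φ.Realize (Sum.elim default y) (fun _ => z) →
      (∀ x : M, φ.Realize (Sum.elim default y) (fun _ => x) →
        φ.Realize (Sum.elim default y) (fun _ => Structure.funMap (L := LA) AF.add ![x, o])) →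
      ∀ x : M, φ.Realize (Sum.elim default y) (fun _ => x) := by
  have h1 : ∀ x : M, (Fin.snoc (default : Fin 0 → M) x : Fin 1 → M) = fun _ => x := by
    intro x; funext i; fin_cases i; rfl
  have hz' : ∀ {α : Type} (v : α → M), (t0 : LA.Term α).realize v = z := by
    intro α v
    subst hz
    simp only [t0, Term.realize_constants]
    exact congrArg (Structure.funMap (L := LA) AF.zero) (Subsingleton.elim (default : Fin 0 → M) ![])
  have ho' : ∀ {α : Type} (v : α → M), (t1 : LA.Term α).realize v = o := by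
    intro α v
    subst ho
    simp only [t1, Term.realize_constants]
    exact congrArg (Structure.funMap (L := LA) AF.one) (Subsingleton.elim (default : Fin 0 → M) ![])
  unfold indAx
  rw [Sentence.Realize, Formula.realize_iAlls]
  refine forall_congr' fun y => ?_
  simp only [Formula.Realize, BoundedFormula.realize_imp, BoundedFormula.realize_inf,
    BoundedFormula.realize_all, BoundedFormula.realize_bdEqual, Term.realize_var, Sum.elim_inr,
    and_imp]
  refine imp_congr ?_ (imp_congr ?_ ?_)
  · constructor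
    · intro h
      have := h z
      rw [h1] at this
      exact this (hz' _).symm
    · intro h x hx
      rw [h1]
      rw [hz'] at hx
      have : x = z := hx
      rw [this]
      exact h
  · refine forall_congr' fun x => ?_
    refine imp_congr (by rw [h1]) ?_
    have hl : ∀ w : M, (φ.liftAt 1 0).Realize (fun a => (Sum.elim default y : Empty ⊕ Fin n → M) a)
        (Fin.snoc (Fin.snoc (default : Fin 0 → M) x) w : Fin 2 → M) ↔
        φ.Realize (Sum.elim default y) (fun _ => w) := by
      intro w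
      rw [BoundedFormula.realize_liftAt (by norm_num)]
      refine iff_of_eq (congrArg _ ?_)
      funext i
      fin_cases i
      rfl
    constructor
    · intro h
      exact (hl _).1 (h _ (by simp only [tadd, Term.realize_functions_apply₂, Term.realize_var, Sum.elim_inr, ho']; rfl))
    · intro h w hw
      refine (hl w).2 ?_
      simp only [tadd, Term.realize_functions_apply₂, Term.realize_var, Sum.elim_inr, ho'] at hw
      have : w = Structure.funMap (L := LA) AF.add ![x, o] := hw
      rw [this]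
      exact h
  · refine forall_congr' fun x => ?_
    rw [h1]

end Pool.Agent.Helper227.EN
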