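import Pool.Agent.Helper227.EN.Rnd
import Pool.Agent.Helper227.ENJ.All

set_option autoImplicit false

open MeasureTheory Encodable FirstOrder FirstOrder.Language
open scoped ENNReal

namespace Pool.Agent.Helper227.EN

/-- The sets coded by formulas have members in all nonempty relative `Pi01` classes. -/
theorem rep_scott {M : Type} [CommSemiring M] [LinearOrder M] [IsStrictOrderedRing M]
    [CanonicallyOrderedAdd M] [LA.Structure M] (hc : Compat M) {W : ℕ → Bool} (hW : W ∈ RepM M)
    {C : List Bool × List Bool → Prop} (hC : S1 C) (hne : (PiC C W).Nonempty) :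
    ∃ Y ∈ RepM M, Y ∈ PiC C W := by
  classical
  obtain ⟨q, hq, mq, eq⟩ := hC
  obtain ⟨F, hFdef⟩ : ∃ F : ℕ → ℕ, F = fun x =>
      if q (((decode (Nat.unpair (Nat.unpair x).2).1 : Option (List Bool)).getD []),
        (((decode (Nat.unpair (Nat.unpair (Nat.unpair x).2).2).1 : Option (List Bool)).getD []).take
          (Nat.unpair (Nat.unpair (Nat.unpair x).2).2).2)) (Nat.unpair x).1 then 1 else 0 := ⟨_, rfl⟩
  have hF : Nat.Primrec F := by
    rw [← Primrec.nat_iff, hFdef]
    refine Primrec.ite (hq.comp (Primrec.pair ?_ ?_) (Primrec.fst.comp Primrec.unpair))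
      (Primrec.const 1) (Primrec.const 0)
    · exact Primrec.option_getD.comp (Primrec.decode.comp
        (Primrec.fst.comp (Primrec.unpair.comp (Primrec.snd.comp Primrec.unpair))))
        (Primrec.const [])
    · refine Primrec.list_take.comp ?_ (Primrec.option_getD.comp (Primrec.decode.comp ?_)
        (Primrec.const []))
      · exact Primrec.snd.comp (Primrec.unpair.comp (Primrec.snd.comp
          (Primrec.unpair.comp (Primrec.snd.comp Primrec.unpair))))
      · exact Primrec.fst.comp (Primrec.unpair.comp (Primrec.snd.comp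
          (Primrec.unpair.comp (Primrec.snd.comp Primrec.unpair))))
  have hFv : ∀ (n i : ℕ) (σ η : List Bool),
      F (Nat.pair n (Nat.pair (encode σ) (Nat.pair (encode η) i))) = 0 ↔ ¬ q (σ, η.take i) n := by
    intro n i σ η
    rw [hFdef]
    simp [Nat.unpair_pair, encodek]
  obtain ⟨B, hB, hBe⟩ := rep_class hc W hW F hF
  obtain ⟨Z, hZ⟩ := hne
  obtain ⟨Y, hY, hYs⟩ := rep_path hc B hB (fun k y => ∀ i ≤ k, ∀ n ≤ k,
      F (Nat.pair n (Nat.pair (encode (pre W i)) (Nat.pair y i))) = 0) hBe Z (by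
    intro s i hi n _
    rw [hFv, take_pre _ _ _ hi]
    intro hcon
    exact hZ i ((eq _).2 ⟨n, hcon⟩))
  refine ⟨Y, hY, fun s hs => ?_⟩
  obtain ⟨n, hn⟩ := (eq _).1 hs
  have h1 := hYs (max s n) s (le_max_left _ _) n (le_max_right _ _)
  rw [hFv, take_pre _ _ _ (le_max_left _ _)] at h1
  exact h1 hn

theorem rand_exists {M : Type} [CommSemiring M] [LinearOrder M] [IsStrictOrderedRing M]
    [CanonicallyOrderedAdd M] [LA.Structure M] (hc : Compat M) {W : ℕ → Bool} (hW : W ∈ RepM M) :
    ∃ Y ∈ RepM M, MLR W Y := by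
  obtain ⟨E, hE, mE, hEm, hEU⟩ := exists_universal
  have hC : S1 fun x : List Bool × List Bool => E (x.1, 1, x.2) :=
    hE.comp (Primrec.fst.pair ((Primrec.const 1).pair Primrec.snd))
  have hP : ∀ X, X ∈ PiC (fun x : List Bool × List Bool => E (x.1, 1, x.2)) W ↔ X ∉ UE E W 1 := by
    intro X
    simp only [PiC, UE, Set.mem_ofPred_eq, not_exists]
    constructor
    · intro h s t hst
      exact h (max s t) (mE _ _ _ _ _ (pre_prefix _ (le_max_left _ _)) (pre_prefix _ (le_max_right _ _)) hst)
    · intro h s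
      exact h s s
  have hne : (PiC (fun x : List Bool × List Bool => E (x.1, 1, x.2)) W).Nonempty := by
    by_contra hcon
    rw [Set.not_nonempty_iff_eq_empty] at hcon
    have h1 : UE E W 1 = Set.univ := by
      ext X
      simp only [Set.mem_univ, iff_true]
      by_contra hX
      have := (hP X).2 hX
      rw [hcon] at this
      exact this
    have h2 := hEm W 1
    have h3 : lam (Set.univ : Set (ℕ → Bool)) = 1 := by
      have : IsProbabilityMeasure lam := by unfold lam; infer_instance
      exact measure_univ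
    rw [h1, h3] at h2
    norm_num at h2
  obtain ⟨Y, hY, hYC⟩ := rep_scott hc hW hC hne
  exact ⟨Y, hY, (hEU W Y).2 ⟨1, (hP Y).1 hYC⟩⟩

instance : Countable LA.Symbols := by
  have h1 : Countable (Σ l, AF l) := by
    refine Function.Surjective.countable (α := Fin 4)
      (f := ![⟨0, AF.zero⟩, ⟨0, AF.one⟩, ⟨2, AF.add⟩, ⟨2, AF.mul⟩]) ?_
    rintro ⟨l, f⟩
    cases f
    · exact ⟨0, rfl⟩
    · exact ⟨1, rfl⟩
    · exact ⟨2, rfl⟩
    · exact ⟨3, rfl⟩
  have h2 : Countable (Σ l, AR l) := by
    refine Function.Surjective.countable (α := Fin 1) (f := ![⟨2, AR.lt⟩]) ?_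
    rintro ⟨l, f⟩
    cases f
    exact ⟨0, rfl⟩
  have h3 : Countable ((Σ l, AF l) ⊕ (Σ l, AR l)) := inferInstance
  exact h3

theorem repM_countable (M : Type) [CommSemiring M] [LA.Structure M] : (RepM M).Countable := by
  classical
  have hcount : Countable (LA.Formula ℕ) := inferInstance
  have h1 : ∀ X : RepM M, ∃ φ : LA.Formula ℕ, ∀ n : ℕ, φ.Realize (fun _ => (n : M)) ↔ X.1 n = true := by
    rintro ⟨X, S, ⟨φ, hφ⟩, hX⟩
    exact ⟨φ, fun n => (hφ _).trans (hX n)⟩
  choose f hf using h1
  have hinj : Function.Injective f := by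
    intro X Y h
    apply Subtype.ext
    funext n
    have h2 := (hf X n).symm.trans ((by rw [h] : _ ↔ _).trans (hf Y n))
    cases hx : X.1 n <;> cases hy : Y.1 n <;> simp_all
  exact hinj.countable

end Pool.Agent.Helper227.EN
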