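import Pool.Agent.Helper227.EN.Dense
import Pool.Agent.Helper227.EN.Scott
import Pool.Agent.Helper227.EN.Alg

set_option autoImplicit false

open MeasureTheory Encodable FirstOrder FirstOrder.Language
open scoped ENNReal

namespace Pool.Agent.Helper227.EN

section gen
variable {M : Type} [LA.Structure M] {R : Set (ℕ → Bool)}

/-- generic sequences -/
theorem generic {ι : Type} [Countable ι] (D : ι → Cnd M R → Prop)
    (hD : ∀ i p, ∃ p', p ≤ p' ∧ D i p') (p0 : Cnd M R) :
    ∃ P : ℕ → Cnd M R, Monotone P ∧ p0 ≤ P 0 ∧ ∀ i, ∃ t, D i (P t) := by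
  classical
  rcases isEmpty_or_nonempty ι with hι | hι
  · exact ⟨fun _ => p0, fun _ _ _ => le_rfl, le_rfl, fun i => hι.elim i⟩
  obtain ⟨e, he⟩ := exists_surjective_nat ι
  choose f hf1 hf2 using hD
  let P : ℕ → Cnd M R := fun t => Nat.rec p0 (fun t p => f (e t) p) t
  have hP : ∀ t, P (t + 1) = f (e t) (P t) := fun t => rfl
  refine ⟨P, monotone_nat_of_le_succ fun t => by rw [hP]; exact hf1 _ _, le_rfl, fun i => ?_⟩
  obtain ⟨t, rfl⟩ := he i
  exact ⟨t + 1, by rw [hP]; exact hf2 _ _⟩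

/-- finite version of `SP` -/
def SPf (u : List Bool) : Prop :=
  ∃ L : List ℕ, ∃ j : ℕ, ((u[cd 3 (L.getD 0 0) 0 0]? = some true ∧ u[cd 4 j 0 0]? = some true) ∧
    L.getLast? = some 0) ∧
    ∀ i < L.length, (i + 1 < L.length → u[cd 0 (L.getD i 0) j (L.getD (i + 1) 0)]? = some true)

theorem SP_iff (X : ℕ → Bool) : SP X ↔ ∃ s, SPf (pre X s) := by
  constructor
  · rintro ⟨L, j, h1, h2, h3, h4⟩
    have hb : ∃ B, ∀ i < L.length, cd 0 (L.getD i 0) j (L.getD (i + 1) 0) < B := by
      refine ⟨(Finset.range L.length).sup (fun i => cd 0 (L.getD i 0) j (L.getD (i + 1) 0)) + 1,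
        fun i hi => ?_⟩
      have := Finset.le_sup (f := fun i => cd 0 (L.getD i 0) j (L.getD (i + 1) 0))
        (Finset.mem_range.2 hi)
      omega
    obtain ⟨B, hB⟩ := hb
    refine ⟨B + (cd 3 (L.getD 0 0) 0 0 + 1) + (cd 4 j 0 0 + 1), L, j, ⟨⟨?_, ?_⟩, h4⟩, fun i hi hi2 => ?_⟩
    · rw [pre_getElem? _ _ _ (by omega), h1]
    · rw [pre_getElem? _ _ _ (by omega), h2]
    · rw [pre_getElem? _ _ _ (by have := hB i hi; omega), h3 i hi2]
  · rintro ⟨s, L, j, ⟨⟨h1, h2⟩, h4⟩, h3⟩
    have key : ∀ z, (pre X s)[z]? = some true → X z = true := by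
      intro z hz
      by_cases h : z < s
      · rw [pre_getElem? _ _ _ h] at hz
        simpa using hz
      · rw [pre_getElem?_none _ _ _ (by omega)] at hz
        cases hz
    exact ⟨L, j, key _ h1, key _ h2, fun i hi => key _ (h3 i (by omega) hi), h4⟩

theorem s1_SPf : S1 SPf := by
  have hcd : ∀ {α : Type} [Primcodable α] {c : ℕ} {a b d : α → ℕ}, Primrec a → Primrec b → Primrec d →
      Primrec fun x => cd c (a x) (b x) (d x) := by
    intro α _ c a b d ha hb hd
    unfold cd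
    exact Primrec₂.natPair.comp (Primrec.const c) (Primrec₂.natPair.comp ha
      (Primrec₂.natPair.comp hb hd))
  unfold SPf
  refine S1.ex (S1.ex (S1.and (S1.of_prim (PrimrecPred.and (PrimrecPred.and ?_ ?_) ?_))
    (S1.all_lt (S1.of_prim ?_) (Primrec.list_length.comp (Primrec.snd.comp Primrec.fst)))))
  · exact Primrec.eq.comp (Primrec.list_getElem?.comp (Primrec.fst.comp Primrec.fst)
      (hcd ((Primrec.list_getD 0).comp (Primrec.snd.comp Primrec.fst) (Primrec.const 0))
        (Primrec.const 0) (Primrec.const 0))) (Primrec.const _)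
  · exact Primrec.eq.comp (Primrec.list_getElem?.comp (Primrec.fst.comp Primrec.fst)
      (hcd Primrec.snd (Primrec.const 0) (Primrec.const 0))) (Primrec.const _)
  · have h1 : Primrec fun L : List ℕ => L.getLast? := by
      have : Primrec fun L : List ℕ => L.reverse.head? :=
        Primrec.list_head?.comp Primrec.list_reverse
      simpa using this
    exact Primrec.eq.comp (h1.comp (Primrec.snd.comp Primrec.fst)) (Primrec.const _)
  · have h1 : PrimrecPred fun x : ((List Bool × List ℕ) × ℕ) × ℕ => ¬ (x.2 + 1 < x.1.1.2.length) ∨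
        x.1.1.1[cd 0 (x.1.1.2.getD x.2 0) x.1.2 (x.1.1.2.getD (x.2 + 1) 0)]? = some true := by
      refine PrimrecPred.or (PrimrecPred.not (Primrec.nat_lt.comp (Primrec.succ.comp Primrec.snd)
        (Primrec.list_length.comp (Primrec.snd.comp (Primrec.fst.comp Primrec.fst))))) ?_
      refine Primrec.eq.comp (Primrec.list_getElem?.comp
        (Primrec.fst.comp (Primrec.fst.comp Primrec.fst)) (hcd ?_ (Primrec.snd.comp Primrec.fst) ?_))
        (Primrec.const _)
      · exact (Primrec.list_getD 0).comp (Primrec.snd.comp (Primrec.fst.comp Primrec.fst)) Primrec.snd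
      · exact (Primrec.list_getD 0).comp (Primrec.snd.comp (Primrec.fst.comp Primrec.fst))
          (Primrec.succ.comp Primrec.snd)
    refine h1.of_eq fun x => ?_
    exact imp_iff_not_or.symm

/-- The initial condition. -/
theorem start [Infinite M] (S : Setup M R) (x : M) (hx : ∀ b : ℕ → M, b 0 = x → ¬ SP (Dg b)) :
    ∃ p : Cnd M R, ∀ b, p.Comp b → ¬ SP (Dg b) := by
  classical
  obtain ⟨b0, hb0, hb0'⟩ := inj_extend (fun _ => x) 1 (by intro i hi j hj _; omega)
  have hb00 : b0 0 = x := hb0' 0 (by omega)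
  obtain ⟨Q, hQ⟩ := S.nonempty
  have hgood : Good R (Helper227.join (Pr 0 0 b0) Q) := by
    refine (good_of_mem S.join S.rand hQ).mono (join_tLe ?_ (TLe.refl _))
    have : Pr 0 0 b0 = fun _ => false := by
      funext z
      have : ¬ Pos 0 0 z := by simp [Pos]
      simp [Pr, this]
    rw [this]
    rw [tLe_iff]
    refine ⟨fun y => y.2.2 = false, S1.of_prim (Primrec.eq.comp (Primrec.snd.comp Primrec.snd)
      (Primrec.const false)), fun _ _ _ _ _ h => h, fun n c => ?_⟩
    simp [eq_comm]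
  have hK : S1 fun y : List Bool × List Bool => ∃ u : List Bool, SPf u ∧
      y.2[colp 0 1 u]? = some true := by
    refine S1.ex (S1.and (s1_SPf.comp Primrec.snd) (S1.of_prim ?_))
    exact Primrec.eq.comp (Primrec.list_getElem?.comp (Primrec.snd.comp Primrec.fst)
      ((primrec_colp 0 1).comp Primrec.snd)) (Primrec.const _)
  have hKe : ∀ y Q : ℕ → Bool, (∀ s, ¬ (fun y : List Bool × List Bool => ∃ u : List Bool, SPf u ∧
      y.2[colp 0 1 u]? = some true) (pre Q s, pre y s)) ↔ ∀ u, SPf u → y (colp 0 1 u) ≠ true := by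
    intro y Q
    constructor
    · intro h u hu hy
      exact h (colp 0 1 u + 1) ⟨u, hu, by simp only; rw [pre_getElem? _ _ _ (by omega), hy]⟩
    · rintro h s ⟨u, hu, hy⟩
      simp only at hy
      by_cases hs : colp 0 1 u < s
      · rw [pre_getElem? _ _ _ hs] at hy
        exact h u hu (by simpa using hy)
      · rw [pre_getElem?_none _ _ _ (by omega)] at hy
        cases hy
  obtain ⟨b1, h1, h2, h3, h4⟩ := ext_gen S 0 0 1 b0 Q hgood hK b0 hb0 (fun _ _ => rfl) (by
    rw [hKe]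
    intro u hu hcol
    have : E (0 + 1) b0 (colp 0 1 u) = true := hcol
    rw [E_colp] at this
    obtain ⟨b', hb', h1, h2⟩ := this
    refine hx b' (by rw [h1 0 (by omega), hb00]) ?_
    rw [SP_iff]
    exact ⟨u.length, by rw [h2]; exact hu⟩)
  rw [hKe] at h3
  refine ⟨⟨1, 1, b1, h1, h4.mono (Pr_tLe _ _ _)⟩, ?_⟩
  rintro b ⟨hb, hcomp⟩ hSP
  simp only at hcomp
  rw [SP_iff] at hSP
  obtain ⟨s, hs⟩ := hSP
  refine h3 _ hs ?_
  have h5 : E 1 b (colp 0 1 (pre (Dg b) s)) = true := by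
    have : E (0 + 1) b (colp 0 1 (pre (Dg b) s)) = true := by
      rw [E_colp]
      exact ⟨b, hb, fun _ _ => rfl, by rw [length_pre]⟩
    exact this
  rw [hcomp _ (Pos_colp 0 1 1 le_rfl _)] at h5
  exact h5

theorem countable_fml : Countable (Σ m, LA.BoundedFormula Empty (m + 1) × (Fin m → ℕ)) := by
  have : ∀ m, Countable (LA.BoundedFormula Empty m) := by
    intro m
    exact Function.Injective.countable (f := fun φ => (⟨m, φ⟩ : Σ n, LA.BoundedFormula Empty n))
      sigma_mk_injective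
  infer_instance

/-- The abstract main theorem. -/
theorem main_model [Infinite M] (S : Setup M R) (x : M)
    (hx : ∀ b : ℕ → M, b 0 = x → ¬ SP (Dg b)) :
    ∃ A : LA.Structure ℕ, (∀ T : LA.Theory, M ⊨ T → @FirstOrder.Language.Theory.Model LA ℕ A T) ∧
      ¬ SP (diag A) ∧ ∀ X, IsEnum X R → ¬ TLe X (diag A) := by
  classical
  obtain ⟨p0, hp0⟩ := start S x hx
  obtain ⟨w, hw⟩ := S.countable.exists_eq_range S.nonempty
  have hcf := countable_fml
  let Gc : Nat.Partrec.Code → List Bool × ℕ × Bool → Prop := fun c y => (c.eval (encode y)).Dom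
  have hGc : ∀ G : List Bool × ℕ × Bool → Prop, S1 G → ∃ c, Gc c = G := by
    intro G hG
    obtain ⟨c, hc⟩ := Nat.Partrec.Code.exists_code.1 hG.re
    refine ⟨c, ?_⟩
    funext y
    simp only [Gc]
    rw [hc]
    simp [Part.assert]
  let ι := ℕ ⊕ (Σ m, LA.BoundedFormula Empty (m + 1) × (Fin m → ℕ)) ⊕ Nat.Partrec.Code ⊕
    (Nat.Partrec.Code × ℕ × ℕ)
  let D : ι → Cnd M R → Prop := fun i p => match i with
    | .inl N => N ≤ p.n ∧ N ≤ p.k
    | .inr (.inl ⟨m, φ, f⟩) =>
      ((∀ b, p.Comp b → ¬ ∃ x : M, φ.Realize default (Fin.snoc (fun i => b (f i)) x)) ∨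
      (∃ j, ∀ b, p.Comp b → φ.Realize default (Fin.snoc (fun i => b (f i)) (b j))))
    | .inr (.inr (.inl c)) => S1 (Gc c) →
      ((∃ i, ∃ Z, Z ∉ R ∧ ∀ b, p.Comp b → ∀ s l v, Gc c (pre (Dg b) s, Nat.pair i l, v) → v = Z l) ∨
      (∃ Y ∈ R, ∀ q, p ≤ q → ∀ i, ∃ q', q ≤ q' ∧ ∃ l v s, s ≤ q'.k ∧
        Gc c (pre (Dg q'.b) s, Nat.pair i l, v) ∧ v ≠ Y l))
    | .inr (.inr (.inr (c, i, j))) =>
      (∃ l v s, s ≤ p.k ∧ Gc c (pre (Dg p.b) s, Nat.pair i l, v) ∧ v ≠ w j l) ∨
      ∀ q, p ≤ q → ¬ ∃ l v s, s ≤ q.k ∧ Gc c (pre (Dg q.b) s, Nat.pair i l, v) ∧ v ≠ w j l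
  have hD : ∀ i p, ∃ p', p ≤ p' ∧ D i p' := by
    intro i p
    rcases i with N | ⟨m, φ, f⟩ | c | ⟨c, i, j⟩
    · exact p.raise S N
    · exact dense_henkin S φ f p
    · by_cases hc : S1 (Gc c)
      · obtain ⟨p', h1, h2⟩ := dense_main S hc p
        exact ⟨p', h1, fun _ => h2⟩
      · exact ⟨p, le_rfl, fun h => absurd h hc⟩
    · by_cases h : ∃ q, p ≤ q ∧ ∃ l v s, s ≤ q.k ∧ Gc c (pre (Dg q.b) s, Nat.pair i l, v) ∧ v ≠ w j l
      · obtain ⟨q, h1, h2⟩ := h
        exact ⟨q, h1, Or.inl h2⟩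
      · refine ⟨p, le_rfl, Or.inr fun q hq hq' => h ⟨q, hq, hq'⟩⟩
  obtain ⟨P, hPm, hP0, hPD⟩ := generic D hD p0
  have hcomp : ∀ t t', t ≤ t' → (P t).Comp (P t').b := fun t t' h => Cnd.comp_of_le (hPm h)
  obtain ⟨A, hA1, hA2⟩ := limit_structure (fun t => (P t).b) (fun t => (P t).inj) (by
    intro m φ f
    obtain ⟨s, hs⟩ := hPD (.inr (.inl ⟨m, φ, f⟩))
    rcases hs with h | ⟨j, h⟩
    · exact Or.inl ⟨s, fun t ht => h _ (hcomp s t ht)⟩
    · exact Or.inr ⟨j, s, fun t ht => h _ (hcomp s t ht)⟩)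
  -- the diagram is the limit
  have hlim : ∀ s, ∃ t0, ∀ t ≥ t0, pre (Dg (P t).b) s = pre (diag A) s := by
    intro s
    obtain ⟨t0, -, ht0⟩ := hPD (.inl s)
    have h1 : ∀ t ≥ t0, pre (Dg (P t).b) s = pre (Dg (P t0).b) s := fun t ht =>
      Cnd.comp_Dg (hcomp t0 t ht) ht0
    refine ⟨t0, fun t ht => ?_⟩
    rw [h1 t ht]
    unfold pre
    refine List.map_congr_left fun z hz => ?_
    rw [List.mem_range] at hz
    have h2 : ∀ t ≥ t0, Dg (P t).b z = Dg (P t0).b z := by
      intro t ht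
      have := congrArg (fun l => l.getD z false) (h1 t ht)
      rwa [pre_getD _ _ _ _ hz, pre_getD _ _ _ _ hz] at this
    have h3 : ∀ᶠ t in (Filter.hyperfilter ℕ : Filter ℕ), t0 ≤ t := by
      have : ∀ᶠ t in Filter.cofinite, t0 ≤ t := by
        rw [Nat.cofinite_eq_atTop]
        exact Filter.eventually_ge_atTop t0
      exact Filter.hyperfilter_le_cofinite this
    rw [Bool.eq_iff_iff, hA2 z]
    constructor
    · intro h
      exact h3.mono fun t ht => by rw [h2 t ht]; exact h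
    · intro h
      obtain ⟨t, ht1, ht2⟩ := (h.and h3).exists
      rw [h2 t ht2] at ht1
      exact ht1
  refine ⟨A, hA1, ?_, ?_⟩
  · intro hSP
    rw [SP_iff] at hSP
    obtain ⟨s, hs⟩ := hSP
    obtain ⟨t0, ht0⟩ := hlim s
    rw [← ht0 t0 le_rfl] at hs
    refine hp0 (P t0).b (Cnd.comp_of_le (hP0.trans (hPm (Nat.zero_le _)))) ?_
    rw [SP_iff]
    exact ⟨s, hs⟩
  · intro X hX hle
    obtain ⟨G, hG, mG, eG⟩ := tLe_iff.1 hle
    obtain ⟨c, rfl⟩ := hGc G hG
    obtain ⟨t, ht⟩ := hPD (.inr (.inr (.inl c)))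
    rcases ht hG with ⟨i, Z, hZR, hZ⟩ | ⟨Y, hY, hYq⟩
    · apply hZR
      have h1 : (fun l => X (Nat.pair i l)) ∈ R := by
        rw [hX]; exact ⟨i, rfl⟩
      have h2 : (fun l => X (Nat.pair i l)) = Z := by
        funext l
        obtain ⟨s, hs⟩ := (eG (Nat.pair i l) _).1 rfl
        obtain ⟨t0, ht0⟩ := hlim s
        rw [← ht0 (max t t0) (le_max_right _ _)] at hs
        exact hZ _ (hcomp t _ (le_max_left _ _)) s l _ hs
      rw [← h2]
      exact h1
    · obtain ⟨j, hj⟩ : ∃ j, w j = Y := by rw [hw] at hY; exact hY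
      obtain ⟨i, hi⟩ : ∃ i, (fun l => X (Nat.pair i l)) = Y := by
        rw [hX] at hY; exact hY
      obtain ⟨t', ht'⟩ := hPD (.inr (.inr (.inr (c, i, j))))
      rcases ht' with ⟨l, v, s, h1, h2, h3⟩ | h
      · obtain ⟨t0, ht0⟩ := hlim s
        have h4 := ht0 (max t' t0) (le_max_right _ _)
        rw [Cnd.comp_Dg (hcomp t' _ (le_max_left _ _)) h1] at h4
        rw [h4] at h2
        have h5 := (eG (Nat.pair i l) v).2 ⟨s, h2⟩
        apply h3
        rw [hj, ← hi]
        exact h5.symm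
      · obtain ⟨q', hq', l, v, s, h1, h2, h3⟩ := hYq (P (max t t')) (hPm (le_max_left _ _)) i
        refine h q' ((hPm (le_max_right _ _)).trans hq') ⟨l, v, s, h1, h2, ?_⟩
        rw [hj]
        exact h3

end gen

theorem num_value {M : Type} [CommSemiring M] [LinearOrder M] [LA.Structure M] (hc : Compat M)
    {α : Type} (v : α → M) (m : ℕ) : (num m : LA.Term α).realize v = (m : M) := by
  induction m with
  | zero =>
    show (t0 : LA.Term α).realize v = _
    rw [ea_t0, hc.zero, Nat.cast_zero]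
  | succ m ih =>
    show (tadd (num m) t1 : LA.Term α).realize v = _
    simp only [tadd, Term.realize_functions_apply₂, ih, ea_t1, hc.one]
    rw [hc.add, Nat.cast_succ]

theorem rep_eq {T : LA.Theory} (hT : T.IsComplete) {M : Type} [CommSemiring M] [LinearOrder M]
    [LA.Structure M] [Nonempty M] (hM : M ⊨ T) (hc : Compat M) : Rep T = RepM M := by
  have key : ∀ σ : LA.Sentence, T ⊨ᵇ σ ↔ M ⊨ σ := fun σ => (hT.realize_sentence_iff σ M).symm
  have hsub : ∀ (φ : LA.Formula (Fin 1)) (n : ℕ),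
      M ⊨ (φ.subst (fun _ => (num n : LA.Term Empty)) : LA.Sentence) ↔ φ.Realize (fun _ => (n : M)) := by
    intro φ n
    rw [Sentence.Realize, Formula.Realize, BoundedFormula.realize_subst]
    simp only [num_value hc]
    rfl
  ext X
  constructor
  · rintro ⟨φ, hφ⟩
    refine ⟨fun x => φ.Realize (fun _ => x), ⟨φ.relabel (fun _ => 0), fun x => ?_⟩, fun n => ?_⟩
    · rw [Formula.realize_relabel]; rfl
    · obtain ⟨h1, h2⟩ := hφ n
      constructor
      · intro h
        by_contra hX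
        rw [Bool.not_eq_true] at hX
        have h3 := (key _).1 (h2 hX)
        have h4 : ¬ M ⊨ (φ.subst (fun _ => (num n : LA.Term Empty)) : LA.Sentence) := h3
        exact h4 ((hsub φ n).2 h)
      · intro hX
        exact (hsub φ n).1 ((key _).1 (h1 hX))
  · rintro ⟨S, ⟨φ, hφ⟩, hS⟩
    refine ⟨φ.relabel (fun _ => (0 : Fin 1)), fun n => ?_⟩
    have h5 : M ⊨ ((φ.relabel (fun _ => (0 : Fin 1))).subst (fun _ => (num n : LA.Term Empty)) :
        LA.Sentence) ↔ X n = true := by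
      rw [hsub, Formula.realize_relabel, ← hS n]
      exact hφ _
    constructor
    · intro hX
      exact (key _).2 (h5.2 hX)
    · intro hX
      refine (key _).2 ?_
      have : ¬ M ⊨ ((φ.relabel (fun _ => (0 : Fin 1))).subst (fun _ => (num n : LA.Term Empty)) :
        LA.Sentence) := by
        rw [h5, hX]; simp
      exact this

theorem main : Statement := by
  intro T hT hPA
  obtain ⟨M⟩ := hT.1
  have hM : (M : Type) ⊨ T := M.is_model
  have hPm : (M : Type) ⊨ PAminus := hM.mono (Set.subset_union_left.trans hPA)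
  obtain ⟨i1, i2, i3, i4, hc⟩ := exists_alg M hPm
  have hchar : Function.Injective (fun m : ℕ => (m : M)) := Nat.cast_injective
  have hinf : Infinite M := Infinite.of_injective _ hchar
  have hnum : Function.Injective
      (fun m : ℕ => (num m : LA.Term Empty).realize (default : Empty → M)) := by
    intro a b h
    simp only [num_value hc] at h
    exact hchar h
  obtain ⟨x, hx⟩ := sp_nonstd hnum
  have hinf2 : Infinite (UP M) := by
    have h1 := up_inj (fun _ i => (i : M)) (fun _ => hchar)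
    exact Infinite.of_injective _ h1
  have S : Setup (UP M) (RepM M) := by
    refine ⟨repM_countable M, ⟨_, repTr hc 0⟩, fun X hX Y hY => repM_join hc X Y hX hY,
      fun n => ?_, fun W hW => rand_exists hc hW, fun n y hy => ?_⟩
    · rw [up_Tr]; exact repTr hc n
    · rw [up_Tr] at hy
      exact up_real n y hy
  obtain ⟨A, hA1, hA2, hA3⟩ := main_model S x hx
  refine ⟨A, hA1 T ?_, fun h => hA2 (sp_std A h), ?_⟩
  · refine ⟨fun φ hφ => ?_⟩
    rw [Ultraproduct.sentence_realize]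
    exact Filter.Eventually.of_forall fun _ => hM.realize_of_mem φ hφ
  · rw [rep_eq hT hM hc]
    exact hA3

end Pool.Agent.Helper227.EN
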