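import Pool.Agent.Helper227.VL
import Pool.Agent.Helper227.Univ

set_option autoImplicit false

open MeasureTheory Encodable
open scoped ENNReal

namespace Pool.Agent.Helper227.EN

/-- The `Pi01` class with oracle `X` given by `C`. -/
def PiC (C : List Bool × List Bool → Prop) (X : ℕ → Bool) : Set (ℕ → Bool) :=
  {y | ∀ s, ¬ C (pre X s, pre y s)}

/-- `X` is good for the family `R`: for every `W ∈ R` some member of `R` is random relative
to `X ⊕ W`. -/
def Good (R : Set (ℕ → Bool)) (X : ℕ → Bool) : Prop := ∀ W ∈ R, ∃ Y ∈ R, MLR (join X W) Y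

theorem Good.mono {R : Set (ℕ → Bool)} {X X' : ℕ → Bool} (h : Good R X) (hX : TLe X' X) :
    Good R X' := by
  intro W hW
  obtain ⟨Y, hY, hR⟩ := h W hW
  exact ⟨Y, hY, hR.mono (join_tLe (hX.trans (tLe_join_left _ _)) (tLe_join_right _ _))⟩

theorem Good.join {R : Set (ℕ → Bool)} (hj : ∀ X ∈ R, ∀ Y ∈ R, join X Y ∈ R) {X V : ℕ → Bool}
    (h : Good R X) (hV : V ∈ R) : Good R (join X V) := by
  intro W hW
  obtain ⟨Y, hY, hR⟩ := h (Helper227.join V W) (hj V hV W hW)
  refine ⟨Y, hY, hR.mono (join_tLe (join_tLe (tLe_join_left _ _) ?_) ?_)⟩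
  · exact (tLe_join_left _ _).trans (tLe_join_right _ _)
  · exact (tLe_join_right _ _).trans (tLe_join_right _ _)

theorem good_of_mem {R : Set (ℕ → Bool)} (hj : ∀ X ∈ R, ∀ Y ∈ R, Helper227.join X Y ∈ R)
    (hr : ∀ W ∈ R, ∃ Y ∈ R, MLR W Y) {X : ℕ → Bool} (hX : X ∈ R) : Good R X :=
  fun W hW => hr _ (hj X hX W hW)

theorem null_of_le {S : Set (ℕ → Bool)} (h : ∀ n : ℕ, lam S ≤ (1 / 2) ^ n) : lam S = 0 := by
  have h1 : Filter.Tendsto (fun n : ℕ => (1 / 2 : ℝ≥0∞) ^ n) Filter.atTop (nhds 0) :=
    ENNReal.tendsto_pow_atTop_nhds_zero_of_lt_one (by norm_num)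
  exact le_antisymm (ge_of_tendsto' h1 h) (by positivity)

theorem lam_singleton (Z : ℕ → Bool) : lam {Z} = 0 := by
  refine null_of_le fun n => ?_
  refine le_trans (measure_mono (t := cyl (pre Z n)) ?_) ?_
  · intro Y hY
    rw [Set.mem_singleton_iff] at hY
    rw [hY]
    exact mem_cyl_pre _ _
  · rw [lam_cyl, length_pre]

/-- almost every set is random relative to a given oracle -/
theorem ae_mlr (X : ℕ → Bool) : ∀ᵐ Z ∂lam, MLR X Z := by
  obtain ⟨E, hE, mE, hEm, hEU⟩ := exists_universal
  have h0 : lam {Z | ¬ MLR X Z} = 0 := by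
    refine null_of_le fun n => le_trans (measure_mono ?_) (hEm X n)
    intro Z hZ
    simp only [Set.mem_ofPred_eq, hEU, not_exists, not_not] at hZ
    exact hZ n
  exact h0

/-- Lemma B. -/
theorem good_random {R : Set (ℕ → Bool)} (hc : R.Countable) {X : ℕ → Bool} (h : Good R X)
    {V : Set (ℕ → Bool)} (hV : lam V ≠ 0) : ∃ Z ∈ V, Z ∉ R ∧ Good R (Helper227.join X Z) := by
  classical
  have h1 : ∀ W : R, ∃ Y ∈ R, MLR (Helper227.join X W.1) Y := fun W => h W.1 W.2
  choose F hF1 hF2 using h1
  have : Countable R := hc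
  have h2 : ∀ᵐ Z ∂lam, ∀ W : R, MLR (Helper227.join (Helper227.join X W.1) (F W)) Z :=
    ae_all_iff.2 fun W => ae_mlr _
  have h3 : ∀ᵐ Z ∂lam, Z ∉ R := by
    rw [ae_iff]
    simp only [not_not]
    have hR : {Z | Z ∈ R} = ⋃ Z ∈ R, {Z} := by ext; simp
    rw [hR]
    exact (measure_biUnion_null_iff hc).2 fun Z _ => lam_singleton Z
  have h4 : ∃ Z ∈ V, Z ∉ R ∧ ∀ W : R, MLR (Helper227.join (Helper227.join X W.1) (F W)) Z := by
    by_contra hcon
    push Not at hcon
    refine hV (measure_mono_null (t := {Z | ¬ (Z ∉ R ∧ ∀ W : R, MLR (Helper227.join (Helper227.join X W.1) (F W)) Z)}) ?_ (h3.and h2))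
    intro Z hZ
    simp only [Set.mem_ofPred_eq, not_and, not_forall]
    exact hcon Z hZ
  obtain ⟨Z, hZV, hZR, hZ⟩ := h4
  refine ⟨Z, hZV, hZR, fun W hW => ⟨F ⟨W, hW⟩, hF1 _, ?_⟩⟩
  have h5 := MLR.join_of (hF2 ⟨W, hW⟩) (hZ ⟨W, hW⟩)
  have h6 := h5.symm.right_rel
  refine h6.mono (join_tLe (join_tLe ?_ ?_) ?_)
  · exact (tLe_join_left _ _).trans (tLe_join_left _ _)
  · exact tLe_join_right _ _
  · exact (tLe_join_right _ _).trans (tLe_join_left _ _)

theorem isClosed_PiC (C : List Bool × List Bool → Prop) (X : ℕ → Bool) : MeasurableSet (PiC C X) := by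
  have : PiC C X = ⋂ s, {y | ¬ C (pre X s, pre y s)} := by
    ext y; simp [PiC]
  rw [this]
  exact MeasurableSet.iInter fun s => measurableSet_pre s (fun η => ¬ C (pre X s, η))

/-- the stage `N` approximation of a `Pi01` class -/
def LN (q : List Bool × List Bool → ℕ → Prop) (τ : List Bool) (N : ℕ) (η : List Bool) : Prop :=
  ∀ t < N + 1, ¬ q (τ.take t, η.take t) N

/-- a random set is not in a null `Pi01` class -/
theorem pos_of_random {X Y : ℕ → Bool} (h : MLR X Y) {C : List Bool × List Bool → Prop} (hC : S1 C)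
    (hY : Y ∈ PiC C X) : lam (PiC C X) ≠ 0 := by
  classical
  intro h0
  obtain ⟨q, hq, mq, eq⟩ := hC
  have hprim : PrimrecPred fun x : (List Bool × ℕ) × List Bool => LN q x.1.1 x.1.2 x.2 := by
    unfold LN
    refine PP.all_lt (α := (List Bool × ℕ) × List Bool)
      (p := fun x t => ¬ q (x.1.1.take t, x.2.take t) x.1.2) ?_
      (Primrec.succ.comp (Primrec.snd.comp Primrec.fst))
    refine PrimrecPred.not (hq.comp ?_ ?_)
    · exact (Primrec.list_take.comp Primrec.snd
        (Primrec.fst.comp (Primrec.fst.comp Primrec.fst))).pair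
        (Primrec.list_take.comp Primrec.snd (Primrec.snd.comp Primrec.fst))
    · exact Primrec.snd.comp (Primrec.fst.comp Primrec.fst)
  -- the finite list of strings
  obtain ⟨Ls, hLs⟩ : ∃ Ls : List Bool → ℕ → List (List Bool), Ls = fun τ N =>
    (allStr N).filter (fun η => LN q τ N η) := ⟨_, rfl⟩
  have hprimL : Primrec fun x : List Bool × ℕ => Ls x.1 x.2 := by
    rw [hLs]
    refine PrimrecRel.listFilter (R := fun η (x : List Bool × ℕ) => LN q x.1 x.2 η) ?_ |>.comp
      (primrec_allStr.comp Primrec.snd) Primrec.id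
    exact hprim.comp (Primrec.snd.pair Primrec.fst)
  have hmem : ∀ N y, pre y N ∈ Ls (pre X N) N ↔ ∀ t ≤ N, ¬ q (pre X t, pre y t) N := by
    intro N y
    rw [hLs]
    simp only [List.mem_filter, mem_allStr, length_pre, true_and, decide_eq_true_eq, LN]
    constructor
    · intro h t ht
      have := h t (by omega)
      rwa [take_pre _ _ _ ht, take_pre _ _ _ ht] at this
    · intro h t ht
      have := h t (by omega)
      rwa [take_pre _ _ _ (by omega), take_pre _ _ _ (by omega)]
  obtain ⟨K, hK⟩ : ∃ K : ℕ → Set (ℕ → Bool), K = fun N => {y | pre y N ∈ (Ls (pre X N) N).toFinset} :=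
    ⟨_, rfl⟩
  have hKmem : ∀ N y, y ∈ K N ↔ ∀ t ≤ N, ¬ q (pre X t, pre y t) N := by
    intro N y
    rw [← hmem, hK]
    simp
  have hKanti : Antitone K := by
    intro N N' hN y hy
    rw [hKmem] at hy ⊢
    intro t ht hc
    exact hy t (by omega) (mq _ _ _ hN hc)
  have hKlam : ∀ N, lam (K N) = ((Ls (pre X N) N).length : ℝ≥0∞) * (1 / 2) ^ N := by
    intro N
    rw [hK]
    simp only
    have hnd : (Ls (pre X N) N).Nodup := by rw [hLs]; exact (nodup_allStr N).filter _
    rw [lam_finset _ N, List.toFinset_card_of_nodup hnd]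
    intro σ hσ
    rw [List.mem_toFinset, hLs] at hσ
    simp only [List.mem_filter, mem_allStr] at hσ
    exact hσ.1
  have hKm : ∀ N, MeasurableSet (K N) := by
    intro N
    rw [hK]
    exact measurableSet_pre N (fun η => η ∈ (Ls (pre X N) N).toFinset)
  have hKint : ⋂ N, K N = PiC C X := by
    ext y
    rw [Set.mem_iInter]
    simp only [hKmem, PiC, Set.mem_ofPred_eq, eq, not_exists]
    constructor
    · intro h s n hc
      exact h (max s n) s (le_max_left _ _) (mq _ _ _ (le_max_right _ _) hc)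
    · intro h N t _
      exact h t N
  have hlim : Filter.Tendsto (fun N => lam (K N)) Filter.atTop (nhds 0) := by
    have := tendsto_measure_iInter_atTop (μ := lam) (fun N => (hKm N).nullMeasurableSet) hKanti
      ⟨0, measure_ne_top _ _⟩
    rwa [hKint, h0] at this
  -- the test
  obtain ⟨E, hE⟩ : ∃ E : List Bool × ℕ × List Bool → Prop, E = fun x => ∃ N : ℕ,
      ((N ≤ x.1.length ∧ N ≤ x.2.2.length) ∧
      ((Ls (x.1.take N) N).length * 2 ^ x.2.1 ≤ 2 ^ N ∧ x.2.2.take N ∈ Ls (x.1.take N) N)) := ⟨_, rfl⟩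
  have hES : S1 E := by
    rw [hE]
    refine S1.ex (S1.of_prim (PrimrecPred.and (PrimrecPred.and ?_ ?_) (PrimrecPred.and ?_ ?_)))
    · exact Primrec.nat_le.comp Primrec.snd (Primrec.list_length.comp (Primrec.fst.comp Primrec.fst))
    · exact Primrec.nat_le.comp Primrec.snd
        (Primrec.list_length.comp (Primrec.snd.comp (Primrec.snd.comp Primrec.fst)))
    · exact Primrec.nat_le.comp (Primrec.nat_mul.comp (Primrec.list_length.comp
        (hprimL.comp ((Primrec.list_take.comp Primrec.snd (Primrec.fst.comp Primrec.fst)).pair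
          Primrec.snd)))
        (primrec_pow.comp (Primrec.const 2) (Primrec.fst.comp (Primrec.snd.comp Primrec.fst))))
        (primrec_pow.comp (Primrec.const 2) Primrec.snd)
    · have : PrimrecRel fun (a : List Bool) (L : List (List Bool)) => a ∈ L := by
        refine ((PrimrecRel.exists_mem_list (R := fun (b a : List Bool) => b = a) Primrec.eq).comp
          Primrec.snd Primrec.fst).of_eq fun x => ?_
        simp
      exact this.comp (Primrec.list_take.comp Primrec.snd
          (Primrec.snd.comp (Primrec.snd.comp Primrec.fst)))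
        (hprimL.comp ((Primrec.list_take.comp Primrec.snd (Primrec.fst.comp Primrec.fst)).pair
          Primrec.snd))
  have hUE : ∀ i, UE E X i = {y | ∃ N, lam (K N) ≤ (1 / 2) ^ i ∧ y ∈ K N} := by
    intro i
    ext y
    simp only [UE, hE, Set.mem_ofPred_eq, length_pre]
    constructor
    · rintro ⟨s, t, N, ⟨h1, h2⟩, h3, h4⟩
      rw [take_pre _ _ _ h1] at h3 h4
      rw [take_pre _ _ _ h2] at h4
      refine ⟨N, ?_, ?_⟩
      · rw [hKlam, ennreal_aux]; exact h3
      · rw [hK]; simpa using h4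
    · rintro ⟨N, h3, h4⟩
      refine ⟨N, N, N, ⟨le_rfl, le_rfl⟩, ?_, ?_⟩
      · rw [hKlam, ennreal_aux] at h3
        rwa [take_pre _ _ _ le_rfl]
      · rw [take_pre _ _ _ le_rfl, take_pre _ _ _ le_rfl]
        rw [hK] at h4; simpa using h4
  have hmeas : ∀ i, lam (UE E X i) ≤ (1 / 2) ^ i := by
    intro i
    rw [hUE]
    by_cases hex : ∃ N, lam (K N) ≤ (1 / 2) ^ i
    · have h1 := Nat.find_spec hex
      refine le_trans (measure_mono ?_) h1
      rintro y ⟨N, hN, hy⟩
      exact hKanti (Nat.find_min' hex hN) hy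
    · have : {y | ∃ N, lam (K N) ≤ (1 / 2) ^ i ∧ y ∈ K N} = ∅ := by
        ext y
        simp only [Set.mem_ofPred_eq, Set.mem_empty_iff_false, iff_false]
        rintro ⟨N, hN, _⟩
        exact hex ⟨N, hN⟩
      rw [this]
      simp
  refine h _ (isMLTest_of_E hES hmeas) ?_
  rw [Set.mem_iInter]
  intro i
  rw [hUE]
  have hpos : (0 : ℝ≥0∞) < (1 / 2) ^ i := by
    refine ENNReal.pow_pos (by norm_num) _
  obtain ⟨N, hN⟩ := (hlim.eventually (gt_mem_nhds hpos)).exists
  refine ⟨N, hN.le, ?_⟩
  have : Y ∈ ⋂ N, K N := by rw [hKint]; exact hY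
  exact Set.mem_iInter.1 this N

/-- projection along a compact factor -/
theorem proj {C : ℕ × List Bool × List Bool × List Bool → Prop} (hC : S1 C) :
    ∃ D : ℕ × List Bool × List Bool → Prop, S1 D ∧ ∀ (n : ℕ) (X Z : ℕ → Bool),
      (∃ s, D (n, pre X s, pre Z s)) ↔ ∀ y : ℕ → Bool, ∃ s, C (n, pre X s, pre y s, pre Z s) := by
  refine ⟨fun x => ∀ η ∈ allStr x.2.2.length, ∃ s : ℕ, s ≤ x.2.2.length ∧
    C (x.1, x.2.1.take s, η.take s, x.2.2.take s), ?_, ?_⟩
  · refine S1.all_mem (f := fun x : ℕ × List Bool × List Bool => allStr x.2.2.length)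
      (S1.ex (S1.and (S1.of_prim ?_) (hC.comp ?_)))
      (primrec_allStr.comp (Primrec.list_length.comp (Primrec.snd.comp Primrec.snd)))
    · exact Primrec.nat_le.comp Primrec.snd (Primrec.list_length.comp
        (Primrec.snd.comp (Primrec.snd.comp (Primrec.fst.comp Primrec.fst))))
    · exact (Primrec.fst.comp (Primrec.fst.comp Primrec.fst)).pair
        ((Primrec.list_take.comp Primrec.snd
          (Primrec.fst.comp (Primrec.snd.comp (Primrec.fst.comp Primrec.fst)))).pair
        ((Primrec.list_take.comp Primrec.snd (Primrec.snd.comp Primrec.fst)).pair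
          (Primrec.list_take.comp Primrec.snd
            (Primrec.snd.comp (Primrec.snd.comp (Primrec.fst.comp Primrec.fst))))))
  · intro n X Z
    constructor
    · rintro ⟨s, hs⟩ y
      obtain ⟨t, ht, h⟩ := hs (pre y s) (by simp [mem_allStr])
      simp only [length_pre] at ht h
      rw [take_pre _ _ _ ht, take_pre _ _ _ ht, take_pre _ _ _ ht] at h
      exact ⟨t, h⟩
    · intro h
      obtain ⟨U, hU⟩ : ∃ U : ℕ → Set (ℕ → Bool), U = fun t => {y | ∃ s ≤ t, C (n, pre X s, pre y s, pre Z s)} :=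
        ⟨_, rfl⟩
      have hop : ∀ t, IsOpen (U t) := by
        intro t
        simp only [hU]
        have : {y : ℕ → Bool | ∃ s ≤ t, C (n, pre X s, pre y s, pre Z s)} =
            ⋃ s ∈ {s | s ≤ t}, {y | C (n, pre X s, pre y s, pre Z s)} := by
          ext y; simp
        rw [this]
        refine isOpen_biUnion fun s _ => ?_
        have hcont : Continuous (fun y : ℕ → Bool => fun i : Fin s => y i) := by fun_prop
        have h2 : {y : ℕ → Bool | C (n, pre X s, pre y s, pre Z s)} =
            (fun y : ℕ → Bool => fun i : Fin s => y i) ⁻¹' {v | C (n, pre X s, List.ofFn v, pre Z s)} := by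
          ext y
          simp only [Set.mem_ofPred_eq, Set.mem_preimage]
          have : List.ofFn (fun i : Fin s => y i) = pre y s := by
            refine List.ext_getElem (by simp) fun i h1 h2 => ?_
            simp [getElem_pre]
          rw [this]
        rw [h2]
        exact (isOpen_discrete _).preimage hcont
      have hcov : (Set.univ : Set (ℕ → Bool)) ⊆ ⋃ t, U t := by
        intro y _
        obtain ⟨s, hs⟩ := h y
        rw [Set.mem_iUnion, hU]
        exact ⟨s, s, le_rfl, hs⟩
      have hmono : Monotone U := by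
        intro a b hab y hy
        rw [hU] at hy ⊢
        obtain ⟨s, hs, hc⟩ := hy
        exact ⟨s, le_trans hs hab, hc⟩
      obtain ⟨t, ht⟩ := (isCompact_univ : IsCompact (Set.univ : Set (ℕ → Bool))).elim_directed_cover U hop hcov
        (directed_of_isDirected_le hmono)
      refine ⟨t, fun η hη => ?_⟩
      rw [mem_allStr] at hη
      simp only [length_pre] at hη ⊢
      have h3 := ht (Set.mem_univ (fun i => η.getD i false))
      rw [hU] at h3
      obtain ⟨s, hs, hc⟩ := h3
      refine ⟨s, hs, ?_⟩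
      rw [take_pre _ _ _ hs, take_pre _ _ _ hs]
      have : pre (fun i => η.getD i false) s = η.take s := by
        refine List.ext_getElem (by simp [hη, hs]) fun i h1 h2 => ?_
        simp only [length_pre] at h1
        rw [getElem_pre, List.getElem_take, List.getD_eq_getElem _ _ (by omega)]
      rw [this] at hc
      exact hc

/-- splitting a joined oracle -/
theorem conv {C : List Bool × List Bool × List Bool → Prop} (hC : S1 C) :
    ∃ D : List Bool × List Bool → Prop, S1 D ∧ ∀ X Z y : ℕ → Bool,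
      (∃ s, D (pre (Helper227.join X Z) s, pre y s)) ↔ ∃ s, C (pre X s, pre Z s, pre y s) := by
  refine ⟨fun x => ∃ s : ℕ, ((2 * s ≤ x.1.length ∧ s ≤ x.2.length) ∧
    C (rd x.1 (fun i => 2 * i) s, rd x.1 (fun i => 2 * i + 1) s, x.2.take s)), ?_, ?_⟩
  · refine S1.ex (S1.and (S1.of_prim (PrimrecPred.and ?_ ?_)) (hC.comp ?_))
    · exact Primrec.nat_le.comp (Primrec.nat_mul.comp (Primrec.const 2) Primrec.snd)
        (Primrec.list_length.comp (Primrec.fst.comp Primrec.fst))
    · exact Primrec.nat_le.comp Primrec.snd (Primrec.list_length.comp (Primrec.snd.comp Primrec.fst))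
    · refine (primrec_rd (g := fun _ i => 2 * i) (Primrec.fst.comp Primrec.fst) ?_ Primrec.snd).pair
        ((primrec_rd (g := fun _ i => 2 * i + 1) (Primrec.fst.comp Primrec.fst) ?_ Primrec.snd).pair
          (Primrec.list_take.comp Primrec.snd (Primrec.snd.comp Primrec.fst)))
      · exact Primrec.nat_mul.comp (Primrec.const 2) Primrec.snd
      · exact Primrec.succ.comp (Primrec.nat_mul.comp (Primrec.const 2) Primrec.snd)
  · have key : ∀ (X Z y : ℕ → Bool) (m s : ℕ), 2 * s ≤ m →
        rd (pre (Helper227.join X Z) m) (fun i => 2 * i) s = pre X s ∧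
        rd (pre (Helper227.join X Z) m) (fun i => 2 * i + 1) s = pre Z s := by
      intro X Z y m s h
      constructor
      · rw [rd_pre (fun i hi => by omega)]
        simp only [join_even]
      · rw [rd_pre (fun i hi => by omega)]
        simp only [join_odd]
    intro X Z y
    constructor
    · rintro ⟨m, s, ⟨h1, h2⟩, h3⟩
      simp only [length_pre] at h1 h2 h3
      rw [(key X Z y m s h1).1, (key X Z y m s h1).2, take_pre _ _ _ h2] at h3
      exact ⟨s, h3⟩
    · rintro ⟨s, h3⟩
      refine ⟨2 * s, s, ⟨by simp, by simp; omega⟩, ?_⟩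
      simp only
      rw [(key X Z y _ s le_rfl).1, (key X Z y _ s le_rfl).2, take_pre _ _ _ (by omega)]
      exact h3

/-- The basis step. -/
theorem basis_step {X Y : ℕ → Bool} (hY : MLR X Y) {C : List Bool × List Bool → Prop} (hC : S1 C)
    (hne : (PiC C X).Nonempty) : ∃ C' : List Bool × List Bool → Prop, S1 C' ∧
      (PiC C' (Helper227.join X Y)).Nonempty ∧ PiC C' (Helper227.join X Y) ⊆ PiC C X ∧
      ∀ P ∈ PiC C' (Helper227.join X Y), MLR (Helper227.join X P) Y := by
  obtain ⟨E, hE, mE, hEm, hEU⟩ := exists_universal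
  obtain ⟨D, hD, hDe⟩ := proj (C := fun x => C (x.2.1, x.2.2.1) ∨
      E (jz x.2.1 x.2.2.1 x.2.1.length, x.1, x.2.2.2)) (by
    refine S1.or (hC.comp ?_) (hE.comp ?_)
    · exact (Primrec.fst.comp Primrec.snd).pair (Primrec.fst.comp (Primrec.snd.comp Primrec.snd))
    · exact (primrec_jz (Primrec.fst.comp Primrec.snd)
        (Primrec.fst.comp (Primrec.snd.comp Primrec.snd))
        (Primrec.list_length.comp (Primrec.fst.comp Primrec.snd))).pair
        (Primrec.fst.pair (Primrec.snd.comp (Primrec.snd.comp Primrec.snd))))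
  -- meaning of the matrix
  have hmat : ∀ (i : ℕ) (P Y' : ℕ → Bool), (∃ s, C (pre X s, pre P s) ∨
      E (jz (pre X s) (pre P s) (pre X s).length, i, pre Y' s)) ↔
      (∃ s, C (pre X s, pre P s)) ∨ Y' ∈ UE E (Helper227.join X P) i := by
    intro i P Y'
    constructor
    · rintro ⟨s, h | h⟩
      · exact Or.inl ⟨s, h⟩
      · rw [length_pre, jz_pre le_rfl le_rfl] at h
        exact Or.inr ⟨s, s, h⟩
    · rintro (⟨s, h⟩ | ⟨s, t, h⟩)
      · exact ⟨s, Or.inl h⟩
      · refine ⟨max s t, Or.inr ?_⟩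
        rw [length_pre, jz_pre le_rfl le_rfl]
        exact mE _ _ _ _ _ (pre_prefix _ (le_max_left _ _)) (pre_prefix _ (le_max_right _ _)) h
  obtain ⟨E2, hE2⟩ : ∃ E2 : List Bool × ℕ × List Bool → Prop, E2 = fun x => ∃ s : ℕ,
      ((s ≤ x.1.length ∧ s ≤ x.2.2.length) ∧ D (x.2.1, x.1.take s, x.2.2.take s)) := ⟨_, rfl⟩
  have hE2S : S1 E2 := by
    rw [hE2]
    refine S1.ex (S1.and (S1.of_prim (PrimrecPred.and ?_ ?_)) (hD.comp ?_))
    · exact Primrec.nat_le.comp Primrec.snd (Primrec.list_length.comp (Primrec.fst.comp Primrec.fst))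
    · exact Primrec.nat_le.comp Primrec.snd
        (Primrec.list_length.comp (Primrec.snd.comp (Primrec.snd.comp Primrec.fst)))
    · exact (Primrec.fst.comp (Primrec.snd.comp Primrec.fst)).pair
        ((Primrec.list_take.comp Primrec.snd (Primrec.fst.comp Primrec.fst)).pair
        (Primrec.list_take.comp Primrec.snd (Primrec.snd.comp (Primrec.snd.comp Primrec.fst))))
  have hUE : ∀ i, UE E2 X i = {Y' | ∀ P, (∃ s, C (pre X s, pre P s)) ∨
      Y' ∈ UE E (Helper227.join X P) i} := by
    intro i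
    ext Y'
    have h1 : Y' ∈ UE E2 X i ↔ ∃ s, D (i, pre X s, pre Y' s) := by
      simp only [UE, hE2, Set.mem_ofPred_eq, length_pre]
      constructor
      · rintro ⟨s, t, r, ⟨h1, h2⟩, h3⟩
        rw [take_pre _ _ _ h1, take_pre _ _ _ h2] at h3
        exact ⟨r, h3⟩
      · rintro ⟨s, h⟩
        exact ⟨s, s, s, ⟨le_rfl, le_rfl⟩, by rw [take_pre _ _ _ le_rfl, take_pre _ _ _ le_rfl]; exact h⟩
    rw [h1, hDe]
    simp only [Set.mem_ofPred_eq]
    exact forall_congr' fun P => hmat i P Y'
  obtain ⟨P0, hP0⟩ := hne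
  have hmeas : ∀ i, lam (UE E2 X i) ≤ (1 / 2) ^ i := by
    intro i
    rw [hUE]
    refine le_trans (measure_mono ?_) (hEm (Helper227.join X P0) i)
    intro Y' hY'
    rcases hY' P0 with ⟨s, hs⟩ | h
    · exact absurd hs (hP0 s)
    · exact h
  have h1 := hY _ (isMLTest_of_E hE2S hmeas)
  rw [Set.mem_iInter, not_forall] at h1
  obtain ⟨i, hi⟩ := h1
  rw [hUE] at hi
  simp only [Set.mem_ofPred_eq, not_forall, not_or] at hi
  obtain ⟨P1, hP1, hP2⟩ := hi
  obtain ⟨C', hC', hC'e⟩ := conv (C := fun x => C (x.1, x.2.2) ∨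
      E (jz x.1 x.2.2 x.1.length, i, x.2.1)) (by
    refine S1.or (hC.comp ?_) (hE.comp ?_)
    · exact Primrec.fst.pair (Primrec.snd.comp Primrec.snd)
    · exact (primrec_jz Primrec.fst (Primrec.snd.comp Primrec.snd)
        (Primrec.list_length.comp Primrec.fst)).pair
        ((Primrec.const i).pair (Primrec.fst.comp Primrec.snd)))
  have hPi : ∀ P, P ∈ PiC C' (Helper227.join X Y) ↔ P ∈ PiC C X ∧ Y ∉ UE E (Helper227.join X P) i := by
    intro P
    have h2 := hC'e X Y P
    have h3 := hmat i P Y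
    simp only at h2
    rw [h3] at h2
    have h4 := not_congr h2
    rw [not_exists, not_or, not_exists] at h4
    exact h4
  refine ⟨C', hC', ⟨P1, (hPi P1).2 ⟨?_, hP2⟩⟩, fun P hP => ((hPi P).1 hP).1, fun P hP => ?_⟩
  · rw [not_exists] at hP1
    exact hP1
  · rw [hEU]
    exact ⟨i, ((hPi P).1 hP).2⟩

/-- a `Pi01` class with an oracle computed from another one -/
theorem PiC_of_tLe {X X' : ℕ → Bool} (h : TLe X X') {C : List Bool × List Bool → Prop} (hC : S1 C) :
    ∃ C' : List Bool × List Bool → Prop, S1 C' ∧ PiC C' X' = PiC C X := by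
  obtain ⟨G, hG, mG, eG⟩ := tLe_iff.1 h
  refine ⟨fun x => ∃ σ : List Bool, (∀ i < σ.length, G (x.1, i, σ.getD i false)) ∧
    (σ.length ≤ x.2.length ∧ C (σ, x.2.take σ.length)), ?_, ?_⟩
  · refine S1.ex (S1.and (S1.all_lt (hG.comp ?_) (Primrec.list_length.comp Primrec.snd))
      (S1.and (S1.of_prim ?_) (hC.comp ?_)))
    · exact (Primrec.fst.comp (Primrec.fst.comp Primrec.fst)).pair
        (Primrec.snd.pair ((Primrec.list_getD false).comp (Primrec.snd.comp Primrec.fst) Primrec.snd))
    · exact Primrec.nat_le.comp (Primrec.list_length.comp Primrec.snd)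
        (Primrec.list_length.comp (Primrec.snd.comp Primrec.fst))
    · exact Primrec.snd.pair (Primrec.list_take.comp (Primrec.list_length.comp Primrec.snd)
        (Primrec.snd.comp Primrec.fst))
  · ext y
    have : (∃ s, ∃ σ : List Bool, (∀ i < σ.length, G (pre X' s, i, σ.getD i false)) ∧
        (σ.length ≤ (pre y s).length ∧ C (σ, (pre y s).take σ.length))) ↔
        ∃ s, C (pre X s, pre y s) := by
      constructor
      · rintro ⟨s, σ, h1, h2, h3⟩
        rw [length_pre] at h2
        rw [take_pre _ _ _ h2] at h3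
        refine ⟨σ.length, ?_⟩
        have : pre X σ.length = σ := by
          refine List.ext_getElem (by simp) fun i hi1 hi2 => ?_
          rw [getElem_pre, (eG i (σ.getD i false)).2 ⟨s, h1 i hi2⟩, List.getD_eq_getElem _ _ hi2]
        rw [this]
        exact h3
      · rintro ⟨s, h3⟩
        have h4 : ∀ r, ∃ t, ∀ i < r, G (pre X' t, i, X i) := by
          intro r
          induction r with
          | zero => exact ⟨0, by simp⟩
          | succ r ih =>
            obtain ⟨t, ht⟩ := ih
            obtain ⟨t', ht'⟩ := (eG r (X r)).1 rfl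
            refine ⟨max t t', fun i hi => ?_⟩
            rcases Nat.lt_succ_iff_lt_or_eq.1 hi with h | rfl
            · exact mG _ _ _ _ (pre_prefix _ (le_max_left _ _)) (ht i h)
            · exact mG _ _ _ _ (pre_prefix _ (le_max_right _ _)) ht'
        obtain ⟨t, ht⟩ := h4 s
        refine ⟨max s t, pre X s, ?_, ?_, ?_⟩
        · intro i hi
          rw [length_pre] at hi
          rw [pre_getD _ _ _ _ hi]
          exact mG _ _ _ _ (pre_prefix _ (le_max_right _ _)) (ht i hi)
        · simp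
        · rw [length_pre, take_pre _ _ _ (le_max_left _ _)]
          exact h3
    have h4 := not_congr this
    rw [not_exists, not_exists] at h4
    exact h4

/-- Lemma A: the basis theorem. -/
theorem good_basis {R : Set (ℕ → Bool)} (hc : R.Countable) (hR : R.Nonempty)
    (hj : ∀ X ∈ R, ∀ Y ∈ R, Helper227.join X Y ∈ R) {X : ℕ → Bool} (hX : Good R X)
    {C : List Bool × List Bool → Prop} (hC : S1 C) (hne : (PiC C X).Nonempty) :
    ∃ P ∈ PiC C X, Good R (Helper227.join X P) := by
  classical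
  obtain ⟨w, hw⟩ := hc.exists_eq_range hR
  -- states: a member `V` of `R` and a class with oracle `X ⊕ V`
  obtain ⟨V0, hV0⟩ := hR
  obtain ⟨C0, hC0, eC0⟩ := PiC_of_tLe (tLe_join_left X V0) hC
  let St := {p : (ℕ → Bool) × (List Bool × List Bool → Prop) // p.1 ∈ R ∧ S1 p.2 ∧
    (PiC p.2 (Helper227.join X p.1)).Nonempty}
  have hstep : ∀ (n : ℕ) (p : St), ∃ p' : St,
      PiC p'.1.2 (Helper227.join X p'.1.1) ⊆ PiC p.1.2 (Helper227.join X p.1.1) ∧
      ∀ P ∈ PiC p'.1.2 (Helper227.join X p'.1.1), ∃ Y ∈ R,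
        MLR (Helper227.join (Helper227.join X P) (w n)) Y := by
    rintro n ⟨⟨V, C1⟩, hV, hC1, hne1⟩
    simp only at hV hC1 hne1
    have hwn : w n ∈ R := by rw [hw]; exact ⟨n, rfl⟩
    have hV1 : Helper227.join V (w n) ∈ R := hj _ hV _ hwn
    obtain ⟨Y, hY, hMY⟩ := hX _ hV1
    have hle : TLe (Helper227.join X V) (Helper227.join X (Helper227.join V (w n))) :=
      join_tLe (tLe_join_left _ _) ((tLe_join_left _ _).trans (tLe_join_right _ _))
    obtain ⟨C2, hC2, eC2⟩ := PiC_of_tLe hle hC1
    obtain ⟨C3, hC3, hne3, hsub3, hP3⟩ := basis_step hMY hC2 (by rw [eC2]; exact hne1)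
    have hV2 : Helper227.join (Helper227.join V (w n)) Y ∈ R := hj _ hV1 _ hY
    have hle2 : TLe (Helper227.join (Helper227.join X (Helper227.join V (w n))) Y)
        (Helper227.join X (Helper227.join (Helper227.join V (w n)) Y)) := by
      refine join_tLe (join_tLe (tLe_join_left _ _) ?_) ?_
      · exact (tLe_join_left _ _).trans (tLe_join_right _ _)
      · exact (tLe_join_right _ _).trans (tLe_join_right _ _)
    obtain ⟨C4, hC4, eC4⟩ := PiC_of_tLe hle2 hC3
    refine ⟨⟨(Helper227.join (Helper227.join V (w n)) Y, C4), hV2, hC4, ?_⟩, ?_, ?_⟩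
    · simp only
      rw [eC4]; exact hne3
    · simp only
      rw [eC4, ← eC2]; exact hsub3
    · simp only
      intro P hP
      rw [eC4] at hP
      refine ⟨Y, hY, (hP3 P hP).mono ?_⟩
      refine join_tLe (join_tLe ?_ (tLe_join_right _ _)) ?_
      · exact (tLe_join_left _ _).trans (tLe_join_left _ _)
      · exact ((tLe_join_right _ _).trans (tLe_join_right _ _)).trans (tLe_join_left _ _)
  choose f hf1 hf2 using hstep
  let g : ℕ → St := fun n => Nat.rec ⟨(V0, C0), hV0, hC0, by simp only; rw [eC0]; exact hne⟩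
    (fun n p => f n p) n
  have hg : ∀ n, g (n + 1) = f n (g n) := fun n => rfl
  obtain ⟨K, hK⟩ : ∃ K : ℕ → Set (ℕ → Bool), K = fun n => PiC (g n).1.2 (Helper227.join X (g n).1.1) :=
    ⟨_, rfl⟩
  have hKc : ∀ n, IsClosed (K n) := by
    intro n
    rw [hK]
    have : PiC (g n).1.2 (Helper227.join X (g n).1.1) =
        ⋂ s, {y | ¬ (g n).1.2 (pre (Helper227.join X (g n).1.1) s, pre y s)} := by
      ext y; simp [PiC]
    simp only [this]
    refine isClosed_iInter fun s => ?_
    have hcont : Continuous (fun y : ℕ → Bool => fun i : Fin s => y i) := by fun_prop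
    have h2 : {y : ℕ → Bool | ¬ (g n).1.2 (pre (Helper227.join X (g n).1.1) s, pre y s)} =
        (fun y : ℕ → Bool => fun i : Fin s => y i) ⁻¹'
          {v | ¬ (g n).1.2 (pre (Helper227.join X (g n).1.1) s, List.ofFn v)} := by
      ext y
      simp only [Set.mem_ofPred_eq, Set.mem_preimage]
      have : List.ofFn (fun i : Fin s => y i) = pre y s := by
        refine List.ext_getElem (by simp) fun i h1 h2 => ?_
        simp [getElem_pre]
      rw [this]
    rw [h2]
    exact (isClosed_discrete _).preimage hcont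
  have hKs : ∀ n, K (n + 1) ⊆ K n := by
    intro n
    rw [hK]
    simp only [hg]
    exact hf1 n (g n)
  have hKn : ∀ n, (K n).Nonempty := by
    intro n
    rw [hK]
    exact (g n).2.2.2
  obtain ⟨P, hP⟩ := IsCompact.nonempty_iInter_of_sequence_nonempty_isCompact_isClosed K hKs hKn
    (hKc 0).isCompact hKc
  rw [Set.mem_iInter] at hP
  refine ⟨P, ?_, ?_⟩
  · have := hP 0
    rw [hK] at this
    simp only at this
    rw [← eC0]
    exact this
  · intro W hW
    rw [hw] at hW
    obtain ⟨n, rfl⟩ := hW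
    have := hP (n + 1)
    rw [hK] at this
    simp only [hg] at this
    exact hf2 n (g n) P this

end Pool.Agent.Helper227.EN
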